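import Mathlib

section

/-!
# MP_eca5e6_al, class 2: the abstract part

`f y x m = |b^y a^x z^{-m}| - y - x`.
-/

set_option autoImplicit false

namespace Pool.Agent.Lib.MP_eca5e6_al.C2

open Filter Set

/-- the properties of the function `f y x m = |b^y a^x z^{-m}| - y - x` -/
structure FF (f : ℕ → ℕ → ℕ → ℕ) (Z C : ℕ) : Prop where
  hx : ∀ y x m, f y (x + 1) m ≤ f y x m
  hy : ∀ y x m, f (y + 1) x m ≤ f y x m
  h0 : ∀ y x, f y x 0 = 0
  h3 : ∀ y x m x' k, f y (x + x') (m + k * x') ≤ f y x m + 2 * k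
  h5 : ∀ y x m r, f y x (m + r) ≤ f y x m + Z * r
  h4 : ∀ y x m, m ≤ C * (f y x m + 1) * (x + y + f y x m + 1)

variable {f : ℕ → ℕ → ℕ → ℕ} {Z C : ℕ}

theorem FF.mono_x (h : FF f Z C) (y m : ℕ) {x x' : ℕ} (hx : x ≤ x') : f y x' m ≤ f y x m :=
  antitone_nat_of_succ_le (f := fun x => f y x m) (fun x => h.hx y x m) hx

theorem FF.mono_y (h : FF f Z C) (x m : ℕ) {y y' : ℕ} (hy : y ≤ y') : f y' x m ≤ f y x m :=
  antitone_nat_of_succ_le (f := fun y => f y x m) (fun y => h.hy y x m) hy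

theorem FF.C_pos (h : FF f Z C) : 0 < C := by
  rcases Nat.eq_zero_or_pos C with h0 | h0
  · have := h.h4 0 0 1
    rw [h0] at this
    simp at this
  · exact h0

theorem FF.upper (h : FF f Z C) {y x j : ℕ} (hyx : y ≤ x) (Y : ℕ) : f Y x (j * y) ≤ 2 * j := by
  have h1 := h.h3 Y 0 0 y j
  rw [h.h0, zero_add, zero_add, zero_add] at h1
  exact (h.mono_x Y (j * y) hyx).trans h1

/-- moving `x` a little and `m` by a bounded multiple -/
theorem FF.shift (h : FF f Z C) {k : ℕ} (hk : 0 < k) {y x x'' m m' : ℕ} (hm : m ≤ m')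
    (hx : x + (m' - m) / k ≤ x'') : f y x'' m' ≤ f y x m + (2 + Z) * k := by
  have h1 := h.h3 y x m ((m' - m) / k) k
  have h2 := h.h5 y (x + (m' - m) / k) (m + k * ((m' - m) / k)) ((m' - m) % k)
  have h3 : m + k * ((m' - m) / k) + (m' - m) % k = m' := by
    have := Nat.div_add_mod (m' - m) k
    omega
  rw [h3] at h2
  have h4 := h.mono_x y m' hx
  have h5 : (m' - m) % k ≤ k := (Nat.mod_lt _ hk).le
  have h6 : Z * ((m' - m) % k) ≤ Z * k := Nat.mul_le_mul_left _ h5
  calc f y x'' m' ≤ f y (x + (m' - m) / k) m' := h4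
    _ ≤ f y (x + (m' - m) / k) (m + k * ((m' - m) / k)) + Z * ((m' - m) % k) := h2
    _ ≤ f y x m + 2 * k + Z * k := add_le_add h1 h6
    _ = _ := by ring

theorem drop_sum {g : ℕ → ℕ} (hg : Antitone g) {B : ℕ} (hB : g 0 ≤ B) (M : ℕ) (j : ℕ)
    (hj : j ≤ M) :
    ∑ i ∈ Finset.range M, ((g (M + 1 + i - j) : ℤ) - g (M + 1 + i)) ≤ j * B := by
  induction j with
  | zero => simp
  | succ j ih =>
    have h1 := ih (by omega)
    have h2 : ∑ i ∈ Finset.range M, ((g (M + 1 + i - (j + 1)) : ℤ) - g (M + 1 + i)) =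
        ∑ i ∈ Finset.range M, ((g (M + i - j) : ℤ) - g (M + (i + 1) - j)) +
          ∑ i ∈ Finset.range M, ((g (M + 1 + i - j) : ℤ) - g (M + 1 + i)) := by
      rw [← Finset.sum_add_distrib]
      refine Finset.sum_congr rfl fun i _ => ?_
      have e1 : M + 1 + i - (j + 1) = M + i - j := by omega
      have e2 : M + 1 + i - j = M + (i + 1) - j := by omega
      rw [e1, e2]
      ring
    rw [h2, Finset.sum_range_sub' (fun i => (g (M + i - j) : ℤ)) M]
    have h3 : (g (M + 0 - j) : ℤ) ≤ B := by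
      have : g (M + 0 - j) ≤ g 0 := hg (Nat.zero_le _)
      exact_mod_cast this.trans hB
    have h4 : (0 : ℤ) ≤ g (M + M - j) := by positivity
    push_cast
    linarith

theorem drop_card {g : ℕ → ℕ} (hg : Antitone g) {B : ℕ} (hB : g 0 ≤ B) (M : ℕ) (j : ℕ)
    (hj : j ≤ M) :
    ((Finset.range M).filter fun i => g (M + 1 + i - j) ≠ g (M + 1 + i)).card ≤ j * B := by
  have h1 := drop_sum hg hB M j hj
  have h2 : (((Finset.range M).filter fun i => g (M + 1 + i - j) ≠ g (M + 1 + i)).card : ℤ) ≤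
      ∑ i ∈ Finset.range M, ((g (M + 1 + i - j) : ℤ) - g (M + 1 + i)) := by
    rw [Finset.card_filter]
    push_cast
    refine Finset.sum_le_sum fun i _ => ?_
    have h3 : g (M + 1 + i) ≤ g (M + 1 + i - j) := hg (Nat.sub_le _ _)
    split_ifs with h4
    · have h5 : g (M + 1 + i) < g (M + 1 + i - j) := lt_of_le_of_ne h3 (Ne.symm h4)
      have h6 : (g (M + 1 + i) : ℤ) + 1 ≤ g (M + 1 + i - j) := by exact_mod_cast h5
      linarith
    · have h6 : (g (M + 1 + i) : ℤ) ≤ g (M + 1 + i - j) := by exact_mod_cast h3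
      linarith
  have h3 := h2.trans h1
  exact_mod_cast h3

/-- a good `N` -/
theorem FF.good_one (h : FF f Z C) (J : ℕ) : ∃ (N : ℕ) (bad : Finset ℕ), J < N ∧
    (bad.card : ℝ) * (1 / (N : ℝ)) ≤ (1 / 2) ^ (J + 2) ∧
    ∀ x ≤ 3 * N, x ∉ bad → ∀ j ≤ J, f (N - j) x (j * x) = f N x (j * x) := by
  classical
  obtain ⟨W, hW⟩ : ∃ W : ℕ, W = 7 * ((J + 1) * (J * (2 * J))) := ⟨_, rfl⟩
  obtain ⟨M, hM⟩ : ∃ M : ℕ, M = W * 2 ^ (J + 2) + J + 1 := ⟨_, rfl⟩
  have hJM : J < M := by rw [hM]; omega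
  let bd : ℕ → Finset ℕ := fun i => (Finset.range (6 * M + 1)).filter fun x =>
    ∃ j ∈ Finset.range (J + 1), f (M + 1 + i - j) x (j * x) ≠ f (M + 1 + i) x (j * x)
  have h1 : ∑ i ∈ Finset.range M, (bd i).card ≤ ∑ i ∈ Finset.range M, W := by
    have e1 : ∀ i, (bd i).card ≤ ∑ x ∈ Finset.range (6 * M + 1), ∑ j ∈ Finset.range (J + 1),
        if f (M + 1 + i - j) x (j * x) ≠ f (M + 1 + i) x (j * x) then 1 else 0 := by
      intro i
      simp only [bd]
      rw [Finset.card_filter]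
      refine Finset.sum_le_sum fun x _ => ?_
      split_ifs with h2
      · obtain ⟨j, hj, hne⟩ := h2
        have := Finset.single_le_sum (f := fun j =>
          if f (M + 1 + i - j) x (j * x) ≠ f (M + 1 + i) x (j * x) then 1 else 0)
          (fun j _ => Nat.zero_le _) hj
        simp only [if_pos hne] at this
        exact this
      · exact Nat.zero_le _
    refine (Finset.sum_le_sum fun i _ => e1 i).trans ?_
    rw [Finset.sum_comm]
    have e2 : ∀ x ∈ Finset.range (6 * M + 1), ∑ i ∈ Finset.range M, ∑ j ∈ Finset.range (J + 1),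
        (if f (M + 1 + i - j) x (j * x) ≠ f (M + 1 + i) x (j * x) then 1 else 0) ≤
          (J + 1) * (J * (2 * J)) := by
      intro x _
      rw [Finset.sum_comm]
      refine (Finset.sum_le_card_nsmul _ _ (J * (2 * J)) ?_).trans (le_of_eq (by simp))
      intro j hj
      have hjJ : j ≤ J := by
        have := Finset.mem_range.1 hj
        omega
      have h2 : f 0 x (j * x) ≤ 2 * j := h.upper le_rfl 0
      have h3 := drop_card (g := fun y => f y x (j * x)) (fun y y' hy => h.mono_y x (j * x) hy)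
        h2 M j (by omega)
      rw [Finset.card_filter] at h3
      refine h3.trans ?_
      exact Nat.mul_le_mul hjJ (by omega)
    refine (Finset.sum_le_card_nsmul _ _ _ e2).trans ?_
    rw [Finset.card_range, smul_eq_mul, Finset.sum_const, Finset.card_range, smul_eq_mul, hW]
    have h3 : 6 * M + 1 ≤ 7 * M := by omega
    calc (6 * M + 1) * ((J + 1) * (J * (2 * J))) ≤ (7 * M) * ((J + 1) * (J * (2 * J))) :=
          Nat.mul_le_mul_right _ h3
      _ = M * (7 * ((J + 1) * (J * (2 * J)))) := by ring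
  obtain ⟨i, hi, hile⟩ := Finset.exists_le_of_sum_le (Finset.nonempty_range_iff.2 (by omega)) h1
  have hiM : i < M := Finset.mem_range.1 hi
  refine ⟨M + 1 + i, bd i, by omega, ?_, ?_⟩
  · have h2 : ((bd i).card : ℝ) ≤ W := by exact_mod_cast hile
    have h3 : (W : ℝ) * 2 ^ (J + 2) ≤ ((M + 1 + i : ℕ) : ℝ) := by
      have : W * 2 ^ (J + 2) ≤ M + 1 + i := by omega
      exact_mod_cast this
    have h4 : (0 : ℝ) < ((M + 1 + i : ℕ) : ℝ) := by
      have : 0 < M + 1 + i := by omega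
      exact_mod_cast this
    rw [mul_one_div, div_le_iff₀ h4, one_div, inv_pow]
    have h5 : (0 : ℝ) < 2 ^ (J + 2) := by positivity
    calc ((bd i).card : ℝ) ≤ W := h2
      _ = (2 ^ (J + 2))⁻¹ * (W * 2 ^ (J + 2)) := by field_simp
      _ ≤ _ := mul_le_mul_of_nonneg_left h3 (by positivity)
  · intro x hx hxb j hj
    by_contra hne
    apply hxb
    simp only [bd, Finset.mem_filter, Finset.mem_range]
    exact ⟨by omega, j, by omega, hne⟩

/-- the set of parameters which avoid the bad sets is large -/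
theorem good_set (N : ℕ → ℕ) (bad : ℕ → Finset ℕ) (hN : ∀ J, 0 < N J)
    (hb : ∀ J, ((bad J).card : ℝ) * (1 / (N J : ℝ)) ≤ (1 / 2) ^ (J + 2)) (K : Set ℝ)
    (hK : K.Countable) :
    ¬ ({ξ : ℝ | ξ ∈ Icc (2 : ℝ) 3 ∧ ∀ J, ⌊ξ * N J⌋₊ ∉ bad J} \ K).Countable := by
  intro hc
  have h1 : {ξ : ℝ | ξ ∈ Icc (2 : ℝ) 3 ∧ ∀ J, ⌊ξ * N J⌋₊ ∉ bad J}.Countable :=
    (hc.union hK).mono (by
      intro ξ hξ
      by_cases hk : ξ ∈ K
      · exact Or.inr hk
      · exact Or.inl ⟨hξ, hk⟩)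
  have h2 : MeasureTheory.volume {ξ : ℝ | ξ ∈ Icc (2 : ℝ) 3 ∧ ∀ J, ⌊ξ * N J⌋₊ ∉ bad J} = 0 :=
    h1.measure_zero _
  have h3 : Icc (2 : ℝ) 3 ⊆ {ξ : ℝ | ξ ∈ Icc (2 : ℝ) 3 ∧ ∀ J, ⌊ξ * N J⌋₊ ∉ bad J} ∪
      ⋃ J, ⋃ x ∈ bad J, Ico ((x : ℝ) / N J) (((x : ℝ) + 1) / N J) := by
    intro ξ hξ
    by_cases h4 : ∀ J, ⌊ξ * N J⌋₊ ∉ bad J
    · exact Or.inl ⟨hξ, h4⟩
    · right
      push Not at h4
      obtain ⟨J, hJ⟩ := h4
      simp only [mem_iUnion]
      refine ⟨J, ⌊ξ * N J⌋₊, hJ, ?_⟩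
      have hNJ : (0 : ℝ) < N J := by exact_mod_cast hN J
      have hξ0 : 0 ≤ ξ * N J := by
        have : (0 : ℝ) ≤ ξ := by linarith [hξ.1]
        positivity
      rw [mem_Ico, div_le_iff₀ hNJ, lt_div_iff₀ hNJ]
      exact ⟨Nat.floor_le hξ0, Nat.lt_floor_add_one _⟩
  have h4 : MeasureTheory.volume (⋃ J, ⋃ x ∈ bad J, Ico ((x : ℝ) / N J) (((x : ℝ) + 1) / N J)) ≤
      ENNReal.ofReal (1 / 2) := by
    refine (MeasureTheory.measure_iUnion_le (μ := MeasureTheory.volume) _).trans ?_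
    have h5 : ∀ J, MeasureTheory.volume (⋃ x ∈ bad J,
        Ico ((x : ℝ) / N J) (((x : ℝ) + 1) / N J)) ≤ ENNReal.ofReal ((1 / 2) ^ (J + 2)) := by
      intro J
      have hNJ : (0 : ℝ) < N J := by exact_mod_cast hN J
      refine (MeasureTheory.measure_biUnion_finset_le (μ := MeasureTheory.volume) _ _).trans ?_
      have h6 : ∀ x ∈ bad J, MeasureTheory.volume (Ico ((x : ℝ) / N J) (((x : ℝ) + 1) / N J)) =
          ENNReal.ofReal (1 / (N J : ℝ)) := by
        intro x _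
        rw [Real.volume_Ico]
        congr 1
        field_simp
        ring
      rw [Finset.sum_congr rfl h6, Finset.sum_const, nsmul_eq_mul,
        ← ENNReal.ofReal_natCast, ← ENNReal.ofReal_mul (by positivity)]
      exact ENNReal.ofReal_le_ofReal (hb J)
    refine (ENNReal.tsum_le_tsum h5).trans (le_of_eq ?_)
    rw [← ENNReal.ofReal_tsum_of_nonneg (fun J => by positivity)]
    · congr 1
      have h7 : ∀ J : ℕ, (1 / 2 : ℝ) ^ (J + 2) = (1 / 4) * (1 / 2) ^ J := by
        intro J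
        rw [pow_add]
        ring
      simp_rw [h7]
      rw [tsum_mul_left, tsum_geometric_of_lt_one (by norm_num) (by norm_num)]
      norm_num
    · have h7 : (fun J : ℕ => (1 / 2 : ℝ) ^ (J + 2)) = fun J => (1 / 4) * (1 / 2) ^ J := by
        funext J
        rw [pow_add]
        ring
      rw [h7]
      exact (summable_geometric_of_lt_one (by norm_num) (by norm_num)).mul_left _
  have h5 := (MeasureTheory.measure_mono (μ := MeasureTheory.volume) h3).trans
    (MeasureTheory.measure_union_le (μ := MeasureTheory.volume) _ _)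
  rw [h2, zero_add, Real.volume_Icc] at h5
  have h6 := h5.trans h4
  rw [ENNReal.ofReal_le_ofReal_iff (by norm_num)] at h6
  norm_num at h6

end Pool.Agent.Lib.MP_eca5e6_al.C2
end

section

/-!
# MP_eca5e6_al, class 2: the area form and the quadratic function
-/

set_option autoImplicit false

namespace Pool.Agent.Lib.MP_eca5e6_al.C2

open scoped commutatorElement

/-! ### commutators in groups of class 2 -/

section classtwo

variable {Q : Type} [Group Q] (hcen : ∀ x y : Q, ⁅x, y⁆ ∈ Subgroup.center Q)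

include hcen

theorem c2_mul_left (x y z : Q) : ⁅x * y, z⁆ = ⁅x, z⁆ * ⁅y, z⁆ := by
  have h1 : ⁅x * y, z⁆ = x * ⁅y, z⁆ * x⁻¹ * ⁅x, z⁆ := by
    simp only [commutatorElement_def]
    group
  have h2 := Subgroup.mem_center_iff.1 (hcen y z) x
  rw [h1, h2, mul_inv_cancel_right]
  exact (Subgroup.mem_center_iff.1 (hcen y z) _).symm

theorem c2_mul_right (x y z : Q) : ⁅x, y * z⁆ = ⁅x, y⁆ * ⁅x, z⁆ := by
  have h1 : ⁅x, y * z⁆ = ⁅x, y⁆ * (y * ⁅x, z⁆ * y⁻¹) := by
    simp only [commutatorElement_def]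
    group
  have h2 := Subgroup.mem_center_iff.1 (hcen x z) y
  rw [h1, h2, mul_inv_cancel_right]

theorem c2_pow_left (x y : Q) (n : ℕ) : ⁅x ^ n, y⁆ = ⁅x, y⁆ ^ n := by
  induction n with
  | zero => simp
  | succ n ih => rw [pow_succ, c2_mul_left hcen, ih, pow_succ]

theorem center_finiteIndex (T : Finset Q) (hT : Subgroup.closure (T : Set Q) = ⊤)
    (hfin : ∀ s ∈ T, ∀ t ∈ T, IsOfFinOrder ⁅s, t⁆) : (Subgroup.center Q).FiniteIndex := by
  classical
  have h1 : ∀ s ∈ T, ∃ n : ℕ, 0 < n ∧ s ^ n ∈ Subgroup.center Q := by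
    intro s hs
    refine ⟨∏ t ∈ T, orderOf ⁅s, t⁆, Finset.prod_pos fun t ht => (hfin s hs t ht).orderOf_pos, ?_⟩
    have h2 : (⊤ : Subgroup Q) ≤ Subgroup.centralizer {s ^ (∏ t ∈ T, orderOf ⁅s, t⁆)} := by
      rw [← hT, Subgroup.closure_le]
      intro t ht
      rw [SetLike.mem_coe, Subgroup.mem_centralizer_singleton_iff]
      have h3 : ⁅s ^ (∏ t ∈ T, orderOf ⁅s, t⁆), t⁆ = 1 := by
        rw [c2_pow_left hcen]
        exact orderOf_dvd_iff_pow_eq_one.1 (Finset.dvd_prod_of_mem _ ht)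
      exact (commutatorElement_eq_one_iff_mul_comm.1 h3).symm
    rw [Subgroup.mem_center_iff]
    intro g
    have h4 := h2 (Subgroup.mem_top g)
    rw [Subgroup.mem_centralizer_singleton_iff] at h4
    exact h4
  let K : Subgroup (Abelianization Q) := (Subgroup.center Q).map Abelianization.of
  have hsurj : Function.Surjective (Abelianization.of : Q →* Abelianization Q) :=
    QuotientGroup.mk_surjective
  have hker : (Subgroup.center Q) = K.comap Abelianization.of := by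
    rw [Subgroup.comap_map_eq, Abelianization.ker_of, sup_eq_left.2]
    rw [commutator_def, Subgroup.commutator_le]
    intro x _ y _
    exact hcen x y
  have hFG : Group.FG Q := ⟨⟨T, hT⟩⟩
  let f : Q →* Abelianization Q ⧸ K := (QuotientGroup.mk' K).comp Abelianization.of
  have hf : Function.Surjective f := (QuotientGroup.mk'_surjective K).comp hsurj
  have hFG2 : Group.FG (Abelianization Q ⧸ K) := Group.fg_of_surjective hf
  have htor : IsMulTorsion (Abelianization Q ⧸ K) := by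
    have h2 : (⊤ : Subgroup Q) ≤ (CommGroup.torsion (Abelianization Q ⧸ K)).comap f := by
      rw [← hT, Subgroup.closure_le]
      intro s hs
      obtain ⟨n, hn, hns⟩ := h1 s hs
      show IsOfFinOrder (f s)
      rw [isOfFinOrder_iff_pow_eq_one]
      refine ⟨n, hn, ?_⟩
      rw [← map_pow]
      exact (QuotientGroup.eq_one_iff _).2 (Subgroup.mem_map_of_mem _ hns)
    intro x
    obtain ⟨g, rfl⟩ := hf x
    exact h2 (Subgroup.mem_top g)
  have hfinq : Finite (Abelianization Q ⧸ K) := CommGroup.finite_of_fg_isMulTorsion _ htor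
  have hK : K.FiniteIndex := Subgroup.finiteIndex_of_finite_quotient
  rw [hker]
  constructor
  rw [Subgroup.index_comap_of_surjective K hsurj]
  exact hK.index_ne_zero

end classtwo

/-! ### a functional on the centre -/

theorem exists_ell {Q : Type} [Group Q] (c : Q) (hc : c ∈ Subgroup.center Q)
    (hinf : ¬ IsOfFinOrder c) : ∃ ℓ : Q → ℝ, ℓ c = 1 ∧
      ∀ x ∈ Subgroup.center Q, ∀ y ∈ Subgroup.center Q, ℓ (x * y) = ℓ x + ℓ y := by
  classical
  let _ : CommGroup (Subgroup.center Q) :=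
    { (inferInstance : Group (Subgroup.center Q)) with
      mul_comm := fun a b => Subtype.ext (Subgroup.mem_center_iff.1 b.2 a.1) }
  let f : ℤ →+ Additive (Subgroup.center Q) :=
    zmultiplesHom (Additive (Subgroup.center Q)) (Additive.ofMul ⟨c, hc⟩)
  have hf : Function.Injective f := by
    rw [injective_iff_map_eq_zero]
    intro n hn
    by_contra hne
    apply hinf
    rw [isOfFinOrder_iff_zpow_eq_one]
    refine ⟨n, hne, ?_⟩
    have h1 : (⟨c, hc⟩ : Subgroup.center Q) ^ n = 1 := by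
      have h2 : n • (Additive.ofMul (⟨c, hc⟩ : Subgroup.center Q)) = 0 := hn
      rw [← ofMul_zpow] at h2
      exact h2
    have h3 := congrArg Subtype.val h1
    simpa using h3
  obtain ⟨h, hh⟩ := (Module.Baer.of_divisible ℝ).extension_property_addMonoidHom
    (M := ℤ) (N := Additive (Subgroup.center Q)) f hf (Int.castAddHom ℝ)
  refine ⟨fun x => if hx : x ∈ Subgroup.center Q then h (Additive.ofMul ⟨x, hx⟩) else 0, ?_, ?_⟩
  · beta_reduce
    rw [dif_pos hc]
    have h1 := DFunLike.congr_fun hh 1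
    simpa [f] using h1
  · intro x hx y hy
    beta_reduce
    rw [dif_pos hx, dif_pos hy, dif_pos (mul_mem hx hy), ← map_add]
    rfl

/-! ### the quadratic function -/

/-- twisted product of a group with the reals -/
@[ext] structure TW {Q : Type} [Group Q] (ω : Q → Q → ℝ)
    (h1 : ∀ g g' h, ω (g * g') h = ω g h + ω g' h) (h2 : ∀ g h h', ω g (h * h') = ω g h + ω g h')
    (h3 : ∀ g, ω g g = 0) where
  /-- first coordinate -/
  g : Q
  /-- second coordinate -/
  r : ℝ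

section tw

variable {Q : Type} [Group Q] {ω : Q → Q → ℝ}
  {h1 : ∀ g g' h, ω (g * g') h = ω g h + ω g' h} {h2 : ∀ g h h', ω g (h * h') = ω g h + ω g h'}
  {h3 : ∀ g, ω g g = 0}

theorem tw_one_left (h1 : ∀ g g' h, ω (g * g') h = ω g h + ω g' h) (g : Q) : ω 1 g = 0 := by
  have e := h1 1 1 g
  rw [mul_one] at e
  linarith

theorem tw_one_right (h2 : ∀ g h h', ω g (h * h') = ω g h + ω g h') (g : Q) : ω g 1 = 0 := by
  have e := h2 g 1 1
  rw [mul_one] at e
  linarith

theorem tw_inv_left (h1 : ∀ g g' h, ω (g * g') h = ω g h + ω g' h) (g h : Q) :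
    ω g⁻¹ h = -ω g h := by
  have e := h1 g g⁻¹ h
  rw [mul_inv_cancel, tw_one_left h1] at e
  linarith

theorem tw_inv_right (h2 : ∀ g h h', ω g (h * h') = ω g h + ω g h') (g h : Q) :
    ω g h⁻¹ = -ω g h := by
  have e := h2 g h h⁻¹
  rw [mul_inv_cancel, tw_one_right h2] at e
  linarith

noncomputable instance : Group (TW ω h1 h2 h3) where
  mul x y := ⟨x.g * y.g, x.r + y.r - ω x.g y.g / 2⟩
  one := ⟨1, 0⟩
  inv x := ⟨x.g⁻¹, -x.r⟩
  mul_assoc x y z := by
    ext
    · exact mul_assoc _ _ _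
    · show x.r + y.r - ω x.g y.g / 2 + z.r - ω (x.g * y.g) z.g / 2 =
        x.r + (y.r + z.r - ω y.g z.g / 2) - ω x.g (y.g * z.g) / 2
      rw [h1, h2]
      ring
  one_mul x := by
    ext
    · exact one_mul _
    · show 0 + x.r - ω 1 x.g / 2 = x.r
      rw [tw_one_left h1]
      ring
  mul_one x := by
    ext
    · exact mul_one _
    · show x.r + 0 - ω x.g 1 / 2 = x.r
      rw [tw_one_right h2]
      ring
  inv_mul_cancel x := by
    ext
    · exact inv_mul_cancel _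
    · show -x.r + x.r - ω x.g⁻¹ x.g / 2 = 0
      rw [tw_inv_left h1, h3]
      ring

@[simp] theorem TW.mul_g (x y : TW ω h1 h2 h3) : (x * y).g = x.g * y.g := rfl
@[simp] theorem TW.mul_r (x y : TW ω h1 h2 h3) : (x * y).r = x.r + y.r - ω x.g y.g / 2 := rfl
@[simp] theorem TW.one_g : (1 : TW ω h1 h2 h3).g = 1 := rfl
@[simp] theorem TW.one_r : (1 : TW ω h1 h2 h3).r = 0 := rfl
@[simp] theorem TW.inv_g (x : TW ω h1 h2 h3) : (x⁻¹).g = x.g⁻¹ := rfl
@[simp] theorem TW.inv_r (x : TW ω h1 h2 h3) : (x⁻¹).r = -x.r := rfl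

end tw

theorem exists_quad {Q : Type} [Group Q] (ω : Q → Q → ℝ)
    (h1 : ∀ g g' h, ω (g * g') h = ω g h + ω g' h) (h2 : ∀ g h h', ω g (h * h') = ω g h + ω g h')
    (h3 : ∀ g, ω g g = 0) (C : Subgroup Q) (ℓ : Q → ℝ)
    (hℓ : ∀ c ∈ C, ∀ d ∈ C, ℓ (c * d) = ℓ c + ℓ d) (hC : ∀ g h : Q, ⁅g, h⁆ ∈ C)
    (hω : ∀ g h, ω g h = ℓ ⁅g, h⁆) (hω0 : ∀ c ∈ C, ∀ g, ω c g = 0) :
    ∃ φ : Q → ℝ, ∀ g h, φ (g * h) = φ g + φ h + ω g h / 2 := by
  have hℓ1 : ℓ 1 = 0 := by
    have e := hℓ 1 C.one_mem 1 C.one_mem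
    rw [mul_one] at e
    linarith
  let D : Subgroup (TW ω h1 h2 h3) :=
    { carrier := {x | x.g ∈ C ∧ x.r = -ℓ x.g}
      mul_mem' := by
        rintro x y ⟨hx1, hx2⟩ ⟨hy1, hy2⟩
        refine ⟨C.mul_mem hx1 hy1, ?_⟩
        rw [TW.mul_r, TW.mul_g, hℓ _ hx1 _ hy1, hx2, hy2, hω0 _ hx1]
        ring
      one_mem' := ⟨C.one_mem, by rw [TW.one_r, TW.one_g, hℓ1, neg_zero]⟩
      inv_mem' := by
        rintro x ⟨hx1, hx2⟩
        refine ⟨C.inv_mem hx1, ?_⟩
        have e := hℓ _ hx1 _ (C.inv_mem hx1)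
        rw [mul_inv_cancel, hℓ1] at e
        rw [TW.inv_r, TW.inv_g, hx2]
        linarith }
  have hanti : ∀ g h, ω g h = -ω h g := by
    intro g h
    have e := h3 (g * h)
    rw [h1, h2, h2, h3, h3] at e
    linarith
  have hcomm : commutator (TW ω h1 h2 h3) ≤ D := by
    rw [commutator_def, Subgroup.commutator_le]
    intro x _ y _
    refine ⟨?_, ?_⟩
    · exact hC x.g y.g
    · have e1 : (⁅x, y⁆ : (TW ω h1 h2 h3)).g = ⁅x.g, y.g⁆ := rfl
      rw [e1, ← hω, commutatorElement_def]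
      simp only [TW.mul_r, TW.mul_g, TW.inv_r, TW.inv_g, h1, tw_inv_left h1, tw_inv_right h2, h3]
      rw [hanti y.g x.g]
      ring
  let ι : ℝ →+ Additive (Abelianization (TW ω h1 h2 h3)) :=
    { toFun := fun r => Additive.ofMul (Abelianization.of (⟨1, r⟩ : (TW ω h1 h2 h3)))
      map_zero' := by
        rw [ofMul_eq_zero]
        exact map_one Abelianization.of
      map_add' := by
        intro r s
        rw [← ofMul_mul, ← map_mul]
        congr 2
        ext
        · simp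
        · simp [h3] }
  have hι : Function.Injective ι := by
    rw [injective_iff_map_eq_zero]
    intro r hr
    have e1 : Abelianization.of (⟨1, r⟩ : (TW ω h1 h2 h3)) = 1 := hr
    have e2 : (⟨1, r⟩ : (TW ω h1 h2 h3)) ∈ commutator (TW ω h1 h2 h3) := by
      rw [← Abelianization.ker_of]
      exact e1
    have e3 := (hcomm e2).2
    simp only [hℓ1, neg_zero] at e3
    exact e3
  obtain ⟨ρ, hρ⟩ := (Module.Baer.of_divisible ℝ).extension_property_addMonoidHom ι hι
    (AddMonoidHom.id ℝ)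
  refine ⟨fun g => ρ (Additive.ofMul (Abelianization.of (⟨g, 0⟩ : (TW ω h1 h2 h3)))), fun g h => ?_⟩
  have e1 : (⟨g * h, 0⟩ : (TW ω h1 h2 h3)) = ⟨g, 0⟩ * ⟨h, 0⟩ * ⟨1, ω g h / 2⟩ := by
    ext
    · simp
    · simp [tw_one_right h2]
  have e2 : ρ (ι (ω g h / 2)) = ω g h / 2 := DFunLike.congr_fun hρ _
  simp only
  rw [e1, map_mul Abelianization.of, map_mul Abelianization.of, ofMul_mul, ofMul_mul, map_add,
    map_add]
  congr 1

/-- area form and quadratic function on a group which has a class 2 quotient that is not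
virtually abelian -/
theorem exists_area {G : Type} [Group G] (S : Finset G) (hS : Subgroup.closure (S : Set G) = ⊤)
    (N : Subgroup G) (hN : N.Normal) (hN2 : ∀ x y z : G, ⁅⁅x, y⁆, z⁆ ∈ N)
    (hva : ¬ ∃ H : Subgroup G, H.FiniteIndex ∧ ∀ a ∈ H, ∀ b ∈ H, ⁅a, b⁆ ∈ N) :
    ∃ (ω : G → G → ℝ) (φ : G → ℝ), (∀ g g' h, ω (g * g') h = ω g h + ω g' h) ∧
      (∀ g h h', ω g (h * h') = ω g h + ω g h') ∧ (∀ g, ω g g = 0) ∧
      (∀ g h, φ (g * h) = φ g + φ h + ω g h / 2) ∧ ∃ s ∈ S, ∃ t ∈ S, ω s t ≠ 0 := by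
  classical
  let Q := G ⧸ N
  let π : G →* Q := QuotientGroup.mk' N
  have hπ : Function.Surjective π := QuotientGroup.mk'_surjective N
  have hπ1 : ∀ g, π g = 1 ↔ g ∈ N := fun g => QuotientGroup.eq_one_iff g
  have hcen : ∀ x y : Q, ⁅x, y⁆ ∈ Subgroup.center Q := by
    intro x y
    obtain ⟨x, rfl⟩ := hπ x
    obtain ⟨y, rfl⟩ := hπ y
    rw [Subgroup.mem_center_iff]
    intro z
    obtain ⟨z, rfl⟩ := hπ z
    rw [← map_commutatorElement]
    have e := (hπ1 _).2 (hN2 x y z)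
    rw [map_commutatorElement, commutatorElement_eq_one_iff_mul_comm] at e
    exact e.symm
  have hex : ∃ s ∈ S, ∃ t ∈ S, ¬ IsOfFinOrder ⁅π s, π t⁆ := by
    by_contra hcon
    push Not at hcon
    apply hva
    have hT : Subgroup.closure ((S.image π : Finset Q) : Set Q) = ⊤ := by
      rw [Finset.coe_image, ← MonoidHom.map_closure, hS]
      exact Subgroup.map_top_of_surjective π hπ
    have hfi := center_finiteIndex hcen (S.image π) hT (by
      intro x hx y hy
      obtain ⟨s, hs, rfl⟩ := Finset.mem_image.1 hx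
      obtain ⟨t, ht, rfl⟩ := Finset.mem_image.1 hy
      exact hcon s hs t ht)
    refine ⟨(Subgroup.center Q).comap π, ?_, ?_⟩
    · constructor
      rw [Subgroup.index_comap_of_surjective _ hπ]
      exact hfi.index_ne_zero
    · intro a ha b _
      rw [← hπ1, map_commutatorElement, commutatorElement_eq_one_iff_mul_comm]
      exact (Subgroup.mem_center_iff.1 ha (π b)).symm
  obtain ⟨s, hs, t, ht, hst⟩ := hex
  obtain ⟨ℓ, hℓ1, hℓ⟩ := exists_ell ⁅π s, π t⁆ (hcen _ _) hst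
  have q1 : ∀ g g' h : Q, ℓ ⁅g * g', h⁆ = ℓ ⁅g, h⁆ + ℓ ⁅g', h⁆ := by
    intro g g' h
    rw [c2_mul_left hcen, hℓ _ (hcen _ _) _ (hcen _ _)]
  have q2 : ∀ g h h' : Q, ℓ ⁅g, h * h'⁆ = ℓ ⁅g, h⁆ + ℓ ⁅g, h'⁆ := by
    intro g h h'
    rw [c2_mul_right hcen, hℓ _ (hcen _ _) _ (hcen _ _)]
  have q0 : ℓ 1 = 0 := by
    have e := hℓ 1 (one_mem _) 1 (one_mem _)
    rw [mul_one] at e
    linarith
  have q3 : ∀ g : Q, ℓ ⁅g, g⁆ = 0 := by
    intro g
    rw [commutatorElement_self, q0]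
  obtain ⟨φ, hφ⟩ := exists_quad (fun g h => ℓ ⁅g, h⁆) q1 q2 q3 (Subgroup.center Q) ℓ hℓ hcen
    (fun _ _ => rfl) (by
      intro c hc g
      have e : ⁅c, g⁆ = 1 := by
        rw [commutatorElement_eq_one_iff_mul_comm]
        exact (Subgroup.mem_center_iff.1 hc g).symm
      simp only [e, q0])
  refine ⟨fun g h => ℓ ⁅π g, π h⁆, fun g => φ (π g), ?_, ?_, ?_, ?_, s, hs, t, ht, ?_⟩
  · intro g g' h
    simp only [map_mul, q1]
  · intro g h h'
    simp only [map_mul, q2]
  · intro g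
    exact q3 _
  · intro g h
    simp only [map_mul, hφ]
  · simp only [hℓ1]
    exact one_ne_zero

end Pool.Agent.Lib.MP_eca5e6_al.C2
end

section

/-!
# MP_eca5e6_al, class 2: the area estimate
-/

set_option autoImplicit false

namespace Pool.Agent.Lib.MP_eca5e6_al.C2

variable {G : Type} [Group G]

theorem area_word (L : Finset G) (μ φ : G → ℝ) (ω : G → G → ℝ) (a : G) (κ δ B B' : ℝ)
    (hμ : ∀ g h, μ (g * h) = μ g + μ h) (hφ : ∀ g h, φ (g * h) = φ g + φ h + ω g h / 2)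
    (h2 : ∀ g h h', ω g (h * h') = ω g h + ω g h') (hκ : 0 < κ)
    (htight : ∀ s ∈ L, μ s = 1 → 0 ≤ ω a s ∧ ω a s ≤ κ)
    (hω : ∀ s ∈ L, ∀ t ∈ L, μ s = 1 → μ t = 1 → ω s t = ω a t - ω a s)
    (hδ : ∀ s ∈ L, μ s ≠ 1 → μ s ≤ 1 - δ) (hB : ∀ s ∈ L, ∀ t ∈ L, |ω s t| ≤ B)
    (haB : ∀ t ∈ L, |ω a t| ≤ B) (hB' : ∀ s ∈ L, |φ s| ≤ B') (hB0 : 0 ≤ B) :
    ∀ w : List G, (∀ s ∈ w, s ∈ L) → ∃ (T : ℝ) (k I : ℕ), k + I = w.length ∧ 0 ≤ T ∧ T ≤ k ∧
      μ w.prod ≤ w.length - δ * I ∧ |ω a w.prod - κ * T| ≤ B * I ∧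
      (∀ s ∈ L, μ s = 1 → κ * T - k * ω a s - B * I ≤ ω s w.prod) ∧
      (∀ s ∈ L, -(B * w.length) ≤ ω s w.prod) ∧
      -(κ / 2 * (T * (k - T))) - B' * w.length - B / 2 * (I * w.length) ≤ φ w.prod := by
  have hω1 : ∀ g, ω g 1 = 0 := by
    intro g
    have e := h2 g 1 1
    rw [mul_one] at e
    linarith
  have hμ1 : μ 1 = 0 := by
    have e := hμ 1 1
    rw [mul_one] at e
    linarith
  have hφ1 : φ 1 = 0 := by
    have e := hφ 1 1
    rw [mul_one, hω1] at e
    linarith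
  intro w
  induction w with
  | nil =>
    intro _
    refine ⟨0, 0, 0, rfl, le_rfl, by simp, by simp [hμ1], by simp [hω1], ?_, ?_, ?_⟩
    · intro s _ _
      simp [hω1]
    · intro s _
      simp [hω1]
    · simp [hφ1]
  | cons s w ih =>
    intro hw
    have hs : s ∈ L := hw s (List.mem_cons_self ..)
    obtain ⟨T, k, I, hk, hT0, hTk, hμw, haw, hsw, hlw, hφw⟩ :=
      ih fun t ht => hw t (List.mem_cons_of_mem _ ht)
    have hlen : ((s :: w).length : ℝ) = w.length + 1 := by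
      push_cast [List.length_cons]
      ring
    have hkI : (k : ℝ) + I = w.length := by exact_mod_cast hk
    have hn0 : (0 : ℝ) ≤ w.length := Nat.cast_nonneg _
    have hI0 : (0 : ℝ) ≤ I := Nat.cast_nonneg _
    have hk0 : (0 : ℝ) ≤ k := Nat.cast_nonneg _
    have hsB' := hB' s hs
    rw [abs_le] at hsB' haw
    have hlw' : ∀ t ∈ L, -(B * ((s :: w).length : ℝ)) ≤ ω t (s :: w).prod := by
      intro t ht
      rw [List.prod_cons, h2, hlen]
      have e1 := hlw t ht
      have e2 := hB t ht s hs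
      rw [abs_le] at e2
      linarith [e2.1]
    by_cases h : μ s = 1
    · obtain ⟨hs0, hsκ⟩ := htight s hs h
      set τ : ℝ := ω a s / κ with hτ
      have hτκ : κ * τ = ω a s := by
        rw [hτ]
        field_simp
      have hτ0 : 0 ≤ τ := div_nonneg hs0 hκ.le
      have hτ1 : τ ≤ 1 := (div_le_one hκ).2 hsκ
      refine ⟨T + τ, k + 1, I, by rw [List.length_cons]; omega, by linarith, ?_, ?_, ?_, ?_, hlw',
        ?_⟩
      · push_cast
        linarith
      · rw [List.prod_cons, hμ, h, hlen]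
        linarith
      · rw [List.prod_cons, h2, abs_le, mul_add, hτκ]
        constructor
        · linarith [haw.1]
        · linarith [haw.2]
      · intro t ht ht1
        rw [List.prod_cons, h2, hω t ht s hs ht1 h]
        have e1 := hsw t ht ht1
        push_cast
        rw [mul_add, hτκ]
        linarith
      · rw [List.prod_cons, hφ, hlen]
        have e1 := hsw s hs h
        rw [← hτκ] at e1
        push_cast
        have e2 : 0 ≤ κ * (T * (1 - τ)) := mul_nonneg hκ.le (mul_nonneg hT0 (by linarith))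
        have e3 : 0 ≤ κ * (τ * (1 - τ)) := mul_nonneg hκ.le (mul_nonneg hτ0 (by linarith))
        nlinarith [hsB'.1]
    · refine ⟨T, k, I + 1, by rw [List.length_cons]; omega, hT0, hTk, ?_, ?_, ?_, hlw', ?_⟩
      · rw [List.prod_cons, hμ, hlen]
        have e1 := hδ s hs h
        push_cast
        linarith
      · rw [List.prod_cons, h2, abs_le]
        have e1 := haB s hs
        rw [abs_le] at e1
        push_cast
        constructor
        · linarith [haw.1, e1.1]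
        · linarith [haw.2, e1.2]
      · intro t ht ht1
        rw [List.prod_cons, h2]
        have e1 := hsw t ht ht1
        have e2 := hB t ht s hs
        rw [abs_le] at e2
        push_cast
        linarith [e2.1]
      · rw [List.prod_cons, hφ, hlen]
        have e1 := hlw s hs
        push_cast
        nlinarith [hsB'.1, mul_nonneg hB0 hn0, mul_nonneg hB0 hI0]

/-- the estimate `m = O((e + 1) (x + y + e + 1))` -/
theorem area_bound (L : Finset G) (μ φ : G → ℝ) (ω : G → G → ℝ) {a b z : G} {κ δ B B' : ℝ}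
    (hμ : ∀ g h, μ (g * h) = μ g + μ h) (hφ : ∀ g h, φ (g * h) = φ g + φ h + ω g h / 2)
    (h1 : ∀ g g' h, ω (g * g') h = ω g h + ω g' h)
    (h2 : ∀ g h h', ω g (h * h') = ω g h + ω g h') (h3 : ∀ g, ω g g = 0) (hκ : 0 < κ)
    (hab : ω a b = κ) (hz : a * b = b * a * z) (haL : a ∈ L) (hbL : b ∈ L)
    (hμa : μ a = 1) (hμb : μ b = 1)
    (htight : ∀ s ∈ L, μ s = 1 → 0 ≤ ω a s ∧ ω a s ≤ κ)
    (hω : ∀ s ∈ L, ∀ t ∈ L, μ s = 1 → μ t = 1 → ω s t = ω a t - ω a s) (hδ0 : 0 < δ)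
    (hδ : ∀ s ∈ L, μ s ≠ 1 → μ s ≤ 1 - δ) (hB : ∀ s ∈ L, ∀ t ∈ L, |ω s t| ≤ B)
    (hB' : ∀ s ∈ L, |φ s| ≤ B') (hB0 : 0 ≤ B) (hB'0 : 0 ≤ B') (y x m e : ℕ)
    (w : List G) (hw : ∀ s ∈ w, s ∈ L) (hwp : w.prod = b ^ y * a ^ x * (z ^ m)⁻¹)
    (hwl : w.length = x + y + e) :
    κ * m ≤ (2 * B' + (κ / 2 + 3 / 2 * (B / δ)) * e) * (x + y + e) := by
  have hanti : ∀ g h, ω g h = -ω h g := by
    intro g h
    have e := h3 (g * h)
    rw [h1, h2, h2, h3, h3] at e
    linarith
  have hω1 : ∀ g, ω g 1 = 0 := by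
    intro g
    have e := h2 g 1 1
    rw [mul_one] at e
    linarith
  have hωinv : ∀ g h, ω g h⁻¹ = -ω g h := by
    intro g h
    have e := h2 g h h⁻¹
    rw [mul_inv_cancel, hω1] at e
    linarith
  have hωpow : ∀ (g h : G) (n : ℕ), ω g (h ^ n) = n * ω g h := by
    intro g h n
    induction n with
    | zero => simp [hω1]
    | succ n ih => rw [pow_succ, h2, ih]; push_cast; ring
  have hμ1 : μ 1 = 0 := by
    have e := hμ 1 1
    rw [mul_one] at e
    linarith
  have hμinv : ∀ g, μ g⁻¹ = -μ g := by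
    intro g
    have e := hμ g g⁻¹
    rw [mul_inv_cancel, hμ1] at e
    linarith
  have hμpow : ∀ (g : G) (n : ℕ), μ (g ^ n) = n * μ g := by
    intro g n
    induction n with
    | zero => simp [hμ1]
    | succ n ih => rw [pow_succ, hμ, ih]; push_cast; ring
  have hφ1 : φ 1 = 0 := by
    have e := hφ 1 1
    rw [mul_one, hω1] at e
    linarith
  have hφinv : ∀ g, φ g⁻¹ = -φ g := by
    intro g
    have e := hφ g g⁻¹
    rw [mul_inv_cancel, hφ1, hωinv, h3] at e
    linarith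
  have hφpow : ∀ (g : G) (n : ℕ), φ (g ^ n) = n * φ g := by
    intro g n
    induction n with
    | zero => simp [hφ1]
    | succ n ih =>
      rw [pow_succ, hφ, ih, hanti (g ^ n) g, hωpow, h3]
      push_cast
      ring
  have hωz : ∀ g, ω g z = 0 := by
    intro g
    have e := congrArg (ω g) hz
    rw [h2, h2, h2] at e
    linarith
  have hμz : μ z = 0 := by
    have e := congrArg μ hz
    rw [hμ, hμ, hμ] at e
    linarith
  have hφz : φ z = κ := by
    have e := congrArg φ hz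
    rw [hφ, hφ, hφ, hωz, hanti b a, hab] at e
    linarith
  have p1 : ω a w.prod = y * κ := by
    rw [hwp, h2, h2, hωinv, hωpow, hωpow, hωpow, h3, hωz, hab]
    ring
  have p2 : μ w.prod = x + y := by
    rw [hwp, hμ, hμ, hμinv, hμpow, hμpow, hμpow, hμz, hμa, hμb]
    ring
  have p3 : φ w.prod = y * φ b + x * φ a - κ / 2 * (x * y) - m * κ := by
    rw [hwp, hφ, hφ, hφinv, hφpow, hφpow, hφpow, hωinv, hωpow (b ^ y) a x,
      hωpow (b ^ y * a ^ x) z m, hωz, hanti (b ^ y) a, hωpow a b y, hab, hφz]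
    ring
  obtain ⟨T, k, I, hk, hT0, hTk, hμw, haw, -, -, hφw⟩ := area_word L μ φ ω a κ δ B B' hμ hφ h2 hκ
    htight hω hδ hB (fun t ht => hB a haL t ht) hB' hB0 w hw
  rw [p1, abs_le] at haw
  rw [p2] at hμw
  rw [p3] at hφw
  have hn : (w.length : ℝ) = x + y + e := by
    rw [hwl]
    push_cast
    ring
  have hkI : (k : ℝ) + I = x + y + e := by
    rw [← hn]
    exact_mod_cast hk
  rw [hn] at hμw hφw
  have hI0 : (0 : ℝ) ≤ I := Nat.cast_nonneg _
  have hx0 : (0 : ℝ) ≤ x := Nat.cast_nonneg _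
  have hy0 : (0 : ℝ) ≤ y := Nat.cast_nonneg _
  have he0 : (0 : ℝ) ≤ e := Nat.cast_nonneg _
  have hI : (I : ℝ) ≤ e / δ := by
    rw [le_div_iff₀ hδ0]
    linarith
  have hBI : B * I ≤ B / δ * e := by
    calc B * I ≤ B * (e / δ) := mul_le_mul_of_nonneg_left hI hB0
      _ = B / δ * e := by ring
  set n : ℝ := x + y + e with hn'
  have hn0 : 0 ≤ n := by positivity
  have hbB := hB' b hbL
  have haB := hB' a haL
  rw [abs_le] at hbB haB
  -- u = T - y
  set u : ℝ := T - y with hu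
  have hu1 : κ * |u| ≤ B * I := by
    rcases abs_cases u with ⟨h, _⟩ | ⟨h, _⟩ <;> rw [h, hu]
    · nlinarith [haw.1]
    · nlinarith [haw.2]
  have hTkT : T * (k - T) ≤ x * y + n * e + 2 * (n * |u|) := by
    have e1 : T = y + u := by rw [hu]; ring
    have e2 : (k : ℝ) - T = x + e - I - u := by rw [e1]; linarith
    have e3 : 0 ≤ (k : ℝ) - T := by linarith
    have e4 : (k : ℝ) - T ≤ n := by linarith
    have e5 : y * (k - T) ≤ y * (x + e + |u|) := by
      apply mul_le_mul_of_nonneg_left _ hy0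
      rw [e2]
      have := neg_abs_le u
      linarith
    have e6 : u * (k - T) ≤ |u| * n := by
      calc u * (k - T) ≤ |u| * (k - T) := mul_le_mul_of_nonneg_right (le_abs_self u) e3
        _ ≤ |u| * n := mul_le_mul_of_nonneg_left e4 (abs_nonneg u)
    have e7 : y * |u| ≤ n * |u| := mul_le_mul_of_nonneg_right (by rw [hn']; linarith) (abs_nonneg u)
    have e8 : (y : ℝ) * e ≤ n * e := mul_le_mul_of_nonneg_right (by rw [hn']; linarith) he0
    calc T * (k - T) = y * (k - T) + u * (k - T) := by rw [e1]; ring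
      _ ≤ y * (x + e + |u|) + |u| * n := add_le_add e5 e6
      _ = x * y + y * e + y * |u| + n * |u| := by ring
      _ ≤ _ := by linarith
  have f1 : κ / 2 * (T * (k - T)) ≤ κ / 2 * (x * y) + κ / 2 * (n * e) + B / δ * e * n := by
    have g1 : κ / 2 * (T * (k - T)) ≤ κ / 2 * (x * y + n * e + 2 * (n * |u|)) :=
      mul_le_mul_of_nonneg_left hTkT (by positivity)
    have g2 : κ * |u| * n ≤ B / δ * e * n := mul_le_mul_of_nonneg_right (hu1.trans hBI) hn0
    nlinarith
  have f2 : B / 2 * (I * n) ≤ 1 / 2 * (B / δ * e * n) := by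
    have := mul_le_mul_of_nonneg_right hBI hn0
    linarith
  have f3 : y * φ b + x * φ a ≤ B' * n := by
    have g1 : y * φ b ≤ y * B' := mul_le_mul_of_nonneg_left hbB.2 hy0
    have g2 : x * φ a ≤ x * B' := mul_le_mul_of_nonneg_left haB.2 hx0
    have g3 : 0 ≤ B' * e := mul_nonneg hB'0 he0
    rw [hn']
    linarith
  linarith

end Pool.Agent.Lib.MP_eca5e6_al.C2
end

section

/-!
# MP_eca5e6_al, class 2: choice of an edge
-/

set_option autoImplicit false

namespace Pool.Agent.Lib.MP_eca5e6_al.C2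

theorem exists_generic {ι : Type} [Finite ι] {V : Type} [AddCommGroup V] [Module ℝ V]
    (f : ι → Module.Dual ℝ V) : ∃ x : V, ∀ i, f i x = 0 → f i = 0 := by
  obtain ⟨x, hx⟩ := Module.Dual.exists_forall_ne_zero_of_forall_exists
    (fun i : {i // f i ≠ 0} => f i.1) (by
      rintro ⟨i, hi⟩
      by_contra h
      push Not at h
      exact hi (LinearMap.ext fun x => by simpa using h x))
  refine ⟨x, fun i hi => ?_⟩
  by_contra h
  exact hx ⟨i, h⟩ hi

variable {G : Type} [Group G]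

theorem exists_edge (L : Finset G) (hinv : ∀ s ∈ L, s⁻¹ ∈ L) (ω : G → G → ℝ)
    (h1 : ∀ g g' h, ω (g * g') h = ω g h + ω g' h) (h2 : ∀ g h h', ω g (h * h') = ω g h + ω g h')
    (h3 : ∀ g, ω g g = 0) (hne : ∃ s ∈ L, ∃ t ∈ L, ω s t ≠ 0) :
    ∃ (μ : G → ℝ) (a b : G), a ∈ L ∧ b ∈ L ∧ (∀ g h, μ (g * h) = μ g + μ h) ∧
      (∀ s ∈ L, μ s ≤ 1) ∧ μ a = 1 ∧ μ b = 1 ∧ 0 < ω a b ∧
      (∀ s ∈ L, μ s = 1 → 0 ≤ ω a s ∧ ω a s ≤ ω a b) ∧
      (∀ s ∈ L, ∀ t ∈ L, μ s = 1 → μ t = 1 → ω s t = ω a t - ω a s) := by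
  classical
  have hanti : ∀ g h, ω g h = -ω h g := by
    intro g h
    have e := h3 (g * h)
    rw [h1, h2, h2, h3, h3] at e
    linarith
  have hω1 : ∀ g, ω g 1 = 0 := by
    intro g
    have e := h2 g 1 1
    rw [mul_one] at e
    linarith
  have hωinv : ∀ g h, ω g h⁻¹ = -ω g h := by
    intro g h
    have e := h2 g h h⁻¹
    rw [mul_inv_cancel, hω1] at e
    linarith
  let ev : G → Module.Dual ℝ (L → ℝ) := fun g => ∑ s : L, (ω s.1 g) • LinearMap.proj s
  have hev : ∀ g c, ev g c = ∑ s : L, ω s.1 g * c s := by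
    intro g c
    simp [ev]
  have hev1 : ∀ g (u : L), ev g (Pi.single u 1) = ω u.1 g := by
    intro g u
    rw [hev, Finset.sum_eq_single u]
    · simp
    · intro s _ hs
      rw [Pi.single_eq_of_ne hs, mul_zero]
    · intro h
      exact absurd (Finset.mem_univ _) h
  obtain ⟨c, hc⟩ := exists_generic (ι := (L × L) ⊕ (L × L × L)) (V := L → ℝ) (fun i => match i with
    | Sum.inl p => ev p.1.1 - ev p.2.1
    | Sum.inr p => ω p.1.1 p.2.2.1 • (ev p.1.1 - ev p.2.1.1) -
        ω p.1.1 p.2.1.1 • (ev p.1.1 - ev p.2.2.1))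
  set μ0 : G → ℝ := fun g => ev g c with hμ0
  have hμ0mul : ∀ g h, μ0 (g * h) = μ0 g + μ0 h := by
    intro g h
    simp only [hμ0, hev, h2, add_mul, Finset.sum_add_distrib]
  have hμ01 : μ0 1 = 0 := by
    have := hμ0mul 1 1
    rw [mul_one] at this
    linarith
  have hμ0inv : ∀ g, μ0 g⁻¹ = -μ0 g := by
    intro g
    have := hμ0mul g g⁻¹
    rw [mul_inv_cancel, hμ01] at this
    linarith
  have G1 : ∀ s ∈ L, ∀ s' ∈ L, μ0 s = μ0 s' → ∀ u ∈ L, ω u s = ω u s' := by
    intro s hs s' hs' he u hu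
    have e1 := hc (Sum.inl (⟨s, hs⟩, ⟨s', hs'⟩)) (by
      simp only [LinearMap.sub_apply]
      exact sub_eq_zero.2 he)
    have e2 := LinearMap.congr_fun e1 (Pi.single ⟨u, hu⟩ 1)
    simp only [LinearMap.sub_apply, hev1, LinearMap.zero_apply] at e2
    linarith
  have G2 : ∀ a ∈ L, ∀ s ∈ L, ∀ s' ∈ L, ω a s' * (μ0 a - μ0 s) = ω a s * (μ0 a - μ0 s') →
      ∀ u ∈ L, ω a s' * (ω u a - ω u s) = ω a s * (ω u a - ω u s') := by
    intro a ha s hs s' hs' he u hu
    have e1 := hc (Sum.inr (⟨a, ha⟩, ⟨s, hs⟩, ⟨s', hs'⟩)) (by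
      simp only [LinearMap.sub_apply, LinearMap.smul_apply, smul_eq_mul]
      exact sub_eq_zero.2 he)
    have e2 := LinearMap.congr_fun e1 (Pi.single ⟨u, hu⟩ 1)
    simp only [LinearMap.sub_apply, LinearMap.smul_apply, smul_eq_mul, hev1,
      LinearMap.zero_apply] at e2
    linarith
  obtain ⟨s0, hs0, t0, ht0, hst⟩ := hne
  obtain ⟨a, ha, hamax⟩ := L.exists_max_image μ0 ⟨s0, hs0⟩
  have hapos : 0 < μ0 a := by
    have hne : μ0 t0 ≠ μ0 s0 := by
      intro he
      have := G1 t0 ht0 s0 hs0 he s0 hs0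
      rw [h3] at this
      exact hst this
    by_contra hcon
    push Not at hcon
    have hz : ∀ r ∈ L, μ0 r = 0 := by
      intro r hr
      have e1 := hamax r hr
      have e2 := hamax r⁻¹ (hinv r hr)
      rw [hμ0inv] at e2
      linarith
    exact hne (by rw [hz t0 ht0, hz s0 hs0])
  have hfpos : ∃ s ∈ L, 0 < ω a s := by
    by_contra hcon
    push Not at hcon
    have hz : ∀ r ∈ L, ω a r = 0 := by
      intro r hr
      have e1 := hcon r hr
      have e2 := hcon r⁻¹ (hinv r hr)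
      rw [hωinv] at e2
      linarith
    have : μ0 a = 0 := by
      simp only [hμ0, hev]
      apply Finset.sum_eq_zero
      intro s _
      rw [hanti, hz s.1 s.2]
      simp
    linarith
  set P : Finset G := L.filter (fun s => 0 < ω a s) with hP
  have hPne : P.Nonempty := by
    obtain ⟨s, hs, hs'⟩ := hfpos
    exact ⟨s, Finset.mem_filter.2 ⟨hs, hs'⟩⟩
  obtain ⟨s1, hs1, hs1min⟩ := P.exists_min_image (fun s => (μ0 a - μ0 s) / ω a s) hPne
  obtain ⟨hs1L, hs1pos⟩ := Finset.mem_filter.1 hs1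
  set t1 : ℝ := (μ0 a - μ0 s1) / ω a s1 with ht1
  have ht1pos : 0 < t1 := by
    apply div_pos _ hs1pos
    have e1 := hamax s1 hs1L
    rcases e1.lt_or_eq with e2 | e2
    · linarith
    · exfalso
      have := G1 s1 hs1L a ha e2 a ha
      rw [h3] at this
      linarith
  set μ : G → ℝ := fun g => (μ0 g + t1 * ω a g) / μ0 a with hμ
  have hμle : ∀ s ∈ L, μ0 s + t1 * ω a s ≤ μ0 a := by
    intro s hs
    rcases le_or_gt (ω a s) 0 with e1 | e1
    · have e2 := hamax s hs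
      have e3 : t1 * ω a s ≤ 0 := mul_nonpos_of_nonneg_of_nonpos ht1pos.le e1
      linarith
    · have e2 := hs1min s (Finset.mem_filter.2 ⟨hs, e1⟩)
      rw [le_div_iff₀ e1] at e2
      linarith
  have htight : ∀ s, μ s = 1 ↔ μ0 s + t1 * ω a s = μ0 a := by
    intro s
    simp only [hμ]
    rw [div_eq_one_iff_eq hapos.ne']
  have htpos : ∀ s ∈ L, μ s = 1 → 0 ≤ ω a s := by
    intro s hs hs'
    rw [htight] at hs'
    by_contra hcon
    push Not at hcon
    have e1 := hamax s hs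
    have e2 : t1 * ω a s < 0 := mul_neg_of_pos_of_neg ht1pos hcon
    linarith
  have hμa : μ a = 1 := by
    rw [htight, h3]
    ring
  have hμs1 : μ s1 = 1 := by
    rw [htight, ht1, div_mul_cancel₀ _ hs1pos.ne']
    ring
  obtain ⟨b, hb, hbmax⟩ := (L.filter (fun s => μ s = 1)).exists_max_image (fun s => ω a s)
    ⟨a, Finset.mem_filter.2 ⟨ha, hμa⟩⟩
  obtain ⟨hbL, hμb⟩ := Finset.mem_filter.1 hb
  refine ⟨μ, a, b, ha, hbL, ?_, ?_, hμa, hμb, ?_, ?_, ?_⟩
  · intro g h
    simp only [hμ]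
    rw [hμ0mul, h2, ← add_div]
    congr 1
    ring
  · intro s hs
    simp only [hμ]
    rw [div_le_one hapos]
    exact hμle s hs
  · exact hs1pos.trans_le (hbmax s1 (Finset.mem_filter.2 ⟨hs1L, hμs1⟩))
  · intro s hs hs'
    exact ⟨htpos s hs hs', hbmax s (Finset.mem_filter.2 ⟨hs, hs'⟩)⟩
  · intro s hs t ht hs' ht'
    have hs2 := (htight s).1 hs'
    have ht2 := (htight t).1 ht'
    rcases (htpos s hs hs').lt_or_eq with e1 | e1
    · have e2 := G2 a ha t ht s hs (by
        have e3 : μ0 a - μ0 t = t1 * ω a t := by linarith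
        have e4 : μ0 a - μ0 s = t1 * ω a s := by linarith
        rw [e3, e4]
        ring) s hs
      rw [h3, hanti s a] at e2
      have e5 : ω a s * (-ω a s - ω s t) = ω a s * (-ω a t) := by
        rw [e2]
        ring
      have e6 := mul_left_cancel₀ e1.ne' e5
      linarith
    · have e2 : μ0 s = μ0 a := by
        rw [← e1] at hs2
        linarith
      have e3 := G1 s hs a ha e2 t ht
      rw [hanti s t, e3, hanti t a, ← e1]
      ring

end Pool.Agent.Lib.MP_eca5e6_al.C2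
end
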