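import Pool.Agent.Lib.MP_eca5e6_al.C2.Edge
import Pool.Agent.Lib.MP_eca5e6_al.Cayley

section

/-!
# MP_eca5e6_al, class 2: slopes of the function `f`
-/

set_option autoImplicit false

namespace Pool.Agent.Lib.MP_eca5e6_al.C2

open Filter Set Topology

variable {f : ℕ → ℕ → ℕ → ℕ} {Z C : ℕ}

/-- a nonprincipal ultrafilter on `ℕ` -/
noncomputable abbrev UU : Filter ℕ := (hyperfilter ℕ : Filter ℕ)

/-- the slope at `ξ` is at most `c` -/
def SL (f : ℕ → ℕ → ℕ → ℕ) (N : ℕ → ℕ) (ξ c : ℝ) : Prop :=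
  ∃ D : ℝ, ∀ j : ℕ, ∀ᶠ J in UU, (f (N J) ⌊ξ * N J⌋₊ (j * N J) : ℝ) ≤ c * j + D

/-- the slope -/
noncomputable def rho (f : ℕ → ℕ → ℕ → ℕ) (N : ℕ → ℕ) (ξ : ℝ) : ℝ :=
  sInf {c : ℝ | 0 ≤ c ∧ SL f N (max ξ 1) c}

theorem ev_large {N : ℕ → ℕ} (hN : ∀ J, J < N J) (K : ℝ) : ∀ᶠ J in UU, K ≤ N J := by
  have h : ∀ᶠ J in atTop, K ≤ (N J : ℝ) := by
    filter_upwards [eventually_ge_atTop ⌈K⌉₊] with J hJ
    have h1 : (K : ℝ) ≤ ⌈K⌉₊ := Nat.le_ceil K
    have h2 : (⌈K⌉₊ : ℝ) ≤ J := by exact_mod_cast hJ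
    have h3 : (J : ℝ) ≤ N J := by exact_mod_cast (hN J).le
    linarith
  exact h.filter_mono Nat.hyperfilter_le_atTop

theorem ev_ge (K : ℕ) : ∀ᶠ J in UU, K ≤ J :=
  (eventually_ge_atTop K).filter_mono Nat.hyperfilter_le_atTop

theorem SL_mono (h : FF f Z C) {N : ℕ → ℕ} {ξ ξ' c : ℝ} (hξ : ξ ≤ ξ') (hs : SL f N ξ c) :
    SL f N ξ' c := by
  obtain ⟨D, hD⟩ := hs
  refine ⟨D, fun j => ?_⟩
  filter_upwards [hD j] with J hJ
  refine le_trans ?_ hJ
  have h1 : ⌊ξ * N J⌋₊ ≤ ⌊ξ' * N J⌋₊ :=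
    Nat.floor_le_floor (mul_le_mul_of_nonneg_right hξ (Nat.cast_nonneg _))
  exact_mod_cast h.mono_x (N J) (j * N J) h1

theorem SL_two (h : FF f Z C) {N : ℕ → ℕ} {ξ : ℝ} (hξ : 1 ≤ ξ) : SL f N ξ 2 := by
  refine ⟨0, fun j => Eventually.of_forall fun J => ?_⟩
  have h1 : N J ≤ ⌊ξ * N J⌋₊ := by
    apply Nat.le_floor
    have : (0 : ℝ) ≤ N J := Nat.cast_nonneg _
    nlinarith
  have h2 := h.upper (j := j) h1 (N J)
  rw [add_zero]
  exact_mod_cast h2

theorem SL_lower (h : FF f Z C) {N : ℕ → ℕ} (hN : ∀ J, J < N J) {ξ c : ℝ} (hξ0 : 0 ≤ ξ)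
    (hξ : ξ ≤ 4) (hc : 0 ≤ c) (hs : SL f N ξ c) : 1 ≤ 6 * C * c := by
  by_contra hcon
  push Not at hcon
  obtain ⟨D, hD⟩ := hs
  have hpos : 0 < 1 - 6 * C * c := by linarith
  obtain ⟨j, hj⟩ := exists_nat_gt (6 * C * (D + 1) / (1 - 6 * C * c))
  rw [div_lt_iff₀ hpos] at hj
  obtain ⟨J, hJ1, hJ2⟩ := ((hD j).and (ev_large hN (c * j + D + 1))).exists
  have hN0 : (0 : ℝ) < N J := by exact_mod_cast (Nat.zero_le J).trans_lt (hN J)
  have h4 := h.h4 (N J) ⌊ξ * N J⌋₊ (j * N J)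
  have h4' : (j : ℝ) * N J ≤ C * ((f (N J) ⌊ξ * N J⌋₊ (j * N J) : ℝ) + 1) *
      ((⌊ξ * N J⌋₊ : ℝ) + N J + (f (N J) ⌊ξ * N J⌋₊ (j * N J) : ℝ) + 1) := by
    exact_mod_cast h4
  generalize hF : (f (N J) ⌊ξ * N J⌋₊ (j * N J) : ℝ) = F at h4' hJ1
  have hF0 : 0 ≤ F := by rw [← hF]; exact Nat.cast_nonneg _
  have hx : (⌊ξ * N J⌋₊ : ℝ) ≤ 4 * N J := by
    refine (Nat.floor_le (by positivity)).trans ?_
    nlinarith
  have hC0 : (0 : ℝ) ≤ C := Nat.cast_nonneg _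
  have e1 : (⌊ξ * N J⌋₊ : ℝ) + N J + F + 1 ≤ 6 * N J := by linarith
  have e2 : C * (F + 1) ≤ C * (c * j + D + 1) := mul_le_mul_of_nonneg_left (by linarith) hC0
  have e3 : (j : ℝ) * N J ≤ C * (c * j + D + 1) * (6 * N J) := by
    refine h4'.trans ?_
    refine mul_le_mul e2 e1 (by positivity) ?_
    exact le_trans (by positivity) e2
  have e4 : (j : ℝ) ≤ C * (c * j + D + 1) * 6 := by
    have e5 : (j : ℝ) * N J ≤ (C * (c * j + D + 1) * 6) * N J := by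
      calc (j : ℝ) * N J ≤ C * (c * j + D + 1) * (6 * N J) := e3
        _ = _ := by ring
    exact le_of_mul_le_mul_right e5 hN0
  nlinarith

section rho

variable {N : ℕ → ℕ}

theorem rho_set_nonempty (h : FF f Z C) (ξ : ℝ) :
    ({c : ℝ | 0 ≤ c ∧ SL f N (max ξ 1) c}).Nonempty :=
  ⟨2, by norm_num, SL_two h (le_max_right _ _)⟩

theorem rho_set_bdd (ξ : ℝ) : BddBelow {c : ℝ | 0 ≤ c ∧ SL f N (max ξ 1) c} :=
  ⟨0, fun _ hc => hc.1⟩

theorem rho_antitone (h : FF f Z C) : Antitone (rho f N) := by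
  intro ξ ξ' hξ
  apply csInf_le_csInf (rho_set_bdd ξ') (rho_set_nonempty h ξ)
  intro c hc
  exact ⟨hc.1, SL_mono h (max_le_max_right 1 hξ) hc.2⟩

theorem rho_pos (h : FF f Z C) (hN : ∀ J, J < N J) {ξ : ℝ} (hξ : ξ ≤ 4) : 0 < rho f N ξ := by
  have hC : (0 : ℝ) < C := by exact_mod_cast h.C_pos
  have h1 : 1 / (6 * C : ℝ) ≤ rho f N ξ := by
    apply le_csInf (rho_set_nonempty h ξ)
    intro c hc
    have h2 := SL_lower h hN (le_trans zero_le_one (le_max_right ξ 1))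
      (max_le hξ (by norm_num)) hc.1 hc.2
    rw [div_le_iff₀ (by positivity)]
    linarith
  exact lt_of_lt_of_le (by positivity) h1

end rho

variable {N : ℕ → ℕ} {ξ η : ℝ}

/-- from the left data -/
theorem stepA (h : FF f Z C) (hN : ∀ J, J < N J) (hη : 2 ≤ η)
    (hE : ∀ j : ℕ, ∀ᶠ J in UU, f (N J) (⌊ξ * N J⌋₊ - j) (j * N J) =
      f (N J) (⌊η * N J⌋₊ - j) (j * N J)) {ε c : ℝ} (hε : 0 < ε) (hε1 : ε ≤ 1)
    (hs : SL f N (η - ε) c) : SL f N ξ c := by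
  obtain ⟨D, hD⟩ := hs
  refine ⟨D, fun j => ?_⟩
  filter_upwards [hD j, hE j, ev_large hN (j / ε)] with J h1 h2 h3
  rw [div_le_iff₀ hε] at h3
  have hN0 : (0 : ℝ) ≤ N J := Nat.cast_nonneg _
  have h4 : ⌊(η - ε) * N J⌋₊ + j ≤ ⌊η * N J⌋₊ := by
    apply Nat.le_floor
    push_cast
    have h5 : (⌊(η - ε) * N J⌋₊ : ℝ) ≤ (η - ε) * N J :=
      Nat.floor_le (mul_nonneg (by linarith) hN0)
    linarith
  have h5 : f (N J) ⌊ξ * N J⌋₊ (j * N J) ≤ f (N J) ⌊(η - ε) * N J⌋₊ (j * N J) :=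
    calc f (N J) ⌊ξ * N J⌋₊ (j * N J) ≤ f (N J) (⌊ξ * N J⌋₊ - j) (j * N J) :=
          h.mono_x _ _ (Nat.sub_le _ _)
      _ = f (N J) (⌊η * N J⌋₊ - j) (j * N J) := h2
      _ ≤ _ := h.mono_x _ _ (by omega)
  have h6 : (f (N J) ⌊ξ * N J⌋₊ (j * N J) : ℝ) ≤ f (N J) ⌊(η - ε) * N J⌋₊ (j * N J) := by
    exact_mod_cast h5
  exact h6.trans h1

/-- from the right data -/
theorem stepB (h : FF f Z C) (hN : ∀ J, J < N J) (hξ : 2 ≤ ξ) (hξη : ξ ≤ η) (hη : η ≤ 3)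
    (hgood : ∀ J, ∀ j ≤ J, f (N J - j) ⌊ξ * N J⌋₊ (j * ⌊ξ * N J⌋₊) =
      f (N J) ⌊ξ * N J⌋₊ (j * ⌊ξ * N J⌋₊))
    (hE : ∀ j : ℕ, ∀ᶠ J in UU, f (N J - j) ⌊ξ * N J⌋₊ (j * ⌊ξ * N J⌋₊) =
      f (N J - j) ⌊η * N J⌋₊ (j * ⌊η * N J⌋₊)) {ε c : ℝ} (hε : 0 < ε) (hε1 : ε ≤ 1) (hc : 0 ≤ c)
    (hs : SL f N (ξ - ε) c) : SL f N (η + ε) (c * ξ / η) := by
  obtain ⟨D, hD⟩ := hs
  have hη0 : 0 < η := by linarith
  obtain ⟨k, hk⟩ : ∃ k : ℕ, k = ⌈8 / ε⌉₊ + 1 := ⟨_, rfl⟩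
  have hk0 : 0 < k := by omega
  have hkε : 8 ≤ ε * k := by
    have h1 : 8 / ε ≤ ⌈8 / ε⌉₊ := Nat.le_ceil _
    have h2 : (⌈8 / ε⌉₊ : ℝ) ≤ k := by rw [hk]; push_cast; linarith
    have h3 := h1.trans h2
    rw [div_le_iff₀ hε] at h3
    linarith
  have hk0' : (0 : ℝ) < k := by exact_mod_cast hk0
  refine ⟨D + 2 * ((2 + Z) * k), fun j => ?_⟩
  obtain ⟨j', hj'⟩ : ∃ j' : ℕ, j' = ⌊(j : ℝ) / η⌋₊ := ⟨_, rfl⟩
  have hj'1 : (j' : ℝ) * η ≤ j := by
    have : (j' : ℝ) ≤ j / η := by rw [hj']; exact Nat.floor_le (by positivity)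
    rwa [le_div_iff₀ hη0] at this
  have hj'2 : (j : ℝ) ≤ (j' + 1) * η := by
    have : (j : ℝ) / η < j' + 1 := by rw [hj']; exact Nat.lt_floor_add_one _
    rw [div_lt_iff₀ hη0] at this
    exact this.le
  obtain ⟨i, hi⟩ : ∃ i : ℕ, i = ⌊(j' : ℝ) * ξ⌋₊ - 1 := ⟨_, rfl⟩
  have hj'0 : (0 : ℝ) ≤ j' := Nat.cast_nonneg _
  have hi1 : (j' : ℝ) * ξ ≤ i + 2 := by
    have h1 : (j' : ℝ) * ξ < ⌊(j' : ℝ) * ξ⌋₊ + 1 := Nat.lt_floor_add_one _
    have h2 : (⌊(j' : ℝ) * ξ⌋₊ : ℝ) ≤ i + 1 := by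
      have : ⌊(j' : ℝ) * ξ⌋₊ ≤ i + 1 := by omega
      exact_mod_cast this
    linarith
  have hi2 : j' = 0 ∨ (i : ℝ) + 1 ≤ j' * ξ := by
    rcases Nat.eq_zero_or_pos j' with h0 | h0
    · exact Or.inl h0
    · right
      have h1 : (1 : ℝ) ≤ j' := by exact_mod_cast h0
      have h2 : 1 ≤ ⌊(j' : ℝ) * ξ⌋₊ := by
        apply Nat.le_floor
        push_cast
        nlinarith
      have h3 : i + 1 = ⌊(j' : ℝ) * ξ⌋₊ := by omega
      have h4 : ((i + 1 : ℕ) : ℝ) ≤ j' * ξ := by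
        rw [h3]
        exact Nat.floor_le (by positivity)
      exact_mod_cast h4
  have hi3 : (i : ℝ) ≤ j' * ξ := by
    rcases hi2 with h0 | h0
    · have : i = 0 := by rw [hi, h0]; simp
      rw [this]
      push_cast
      positivity
    · linarith
  filter_upwards [hD i, hE j', ev_large hN j', ev_ge j'] with J h1 h2 h3 h4
  have hN0 : (0 : ℝ) ≤ N J := Nat.cast_nonneg _
  have hg := hgood J j' h4
  obtain ⟨xx, hxx⟩ : ∃ xx : ℕ, xx = ⌊ξ * N J⌋₊ := ⟨_, rfl⟩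
  obtain ⟨xe, hxe⟩ : ∃ xe : ℕ, xe = ⌊η * N J⌋₊ := ⟨_, rfl⟩
  rw [← hxx] at h2 hg
  rw [← hxe] at h2
  have hxx1 : (xx : ℝ) ≤ ξ * N J := by
    rw [hxx]
    exact Nat.floor_le (by positivity)
  have hxx2 : ξ * N J ≤ xx + 1 := by
    rw [hxx]
    exact (Nat.lt_floor_add_one _).le
  have hxe1 : (xe : ℝ) ≤ η * N J := by
    rw [hxe]
    exact Nat.floor_le (by positivity)
  have hxe2 : η * N J ≤ xe + 1 := by
    rw [hxe]
    exact (Nat.lt_floor_add_one _).le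
  -- first shift
  have s1 : f (N J) ⌊(η + ε) * N J⌋₊ (j * N J) ≤ f (N J) xe (j' * xe) + (2 + Z) * k := by
    have hm : j' * xe ≤ j * N J := by
      have : (j' : ℝ) * xe ≤ j * N J := by
        calc (j' : ℝ) * xe ≤ j' * (η * N J) := mul_le_mul_of_nonneg_left hxe1 hj'0
          _ = (j' * η) * N J := by ring
          _ ≤ j * N J := mul_le_mul_of_nonneg_right hj'1 hN0
      exact_mod_cast this
    apply h.shift hk0 hm
    apply Nat.le_floor
    push_cast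
    have e1 : (((j * N J - j' * xe) / k : ℕ) : ℝ) ≤ ε * N J := by
      refine (Nat.cast_div_le).trans ?_
      rw [div_le_iff₀ hk0', Nat.cast_sub hm]
      push_cast
      have e2 : (j : ℝ) * N J - j' * xe ≤ 4 * N J := by
        have e3 : (j : ℝ) * N J ≤ (j' + 1) * η * N J := mul_le_mul_of_nonneg_right hj'2 hN0
        have e4 : (j' : ℝ) * (η * N J) ≤ j' * (xe + 1) := mul_le_mul_of_nonneg_left hxe2 hj'0
        have e5 : η * N J ≤ 3 * N J := mul_le_mul_of_nonneg_right hη hN0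
        nlinarith
      have e3 : 8 * (N J : ℝ) ≤ ε * k * N J := mul_le_mul_of_nonneg_right hkε hN0
      nlinarith
    linarith
  have s2 : f (N J) xe (j' * xe) ≤ f (N J - j') xe (j' * xe) := h.mono_y _ _ (Nat.sub_le _ _)
  -- second shift
  have s3 : f (N J) xx (j' * xx) ≤ f (N J) ⌊(ξ - ε) * N J⌋₊ (i * N J) + (2 + Z) * k := by
    have hm : i * N J ≤ j' * xx := by
      rcases hi2 with h0 | h0
      · have : i = 0 := by rw [hi, h0]; simp
        rw [this]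
        simp
      · have : (i : ℝ) * N J ≤ j' * xx := by
          have e1 : ((i : ℝ) + 1) * N J ≤ j' * ξ * N J := mul_le_mul_of_nonneg_right h0 hN0
          have e2 : (j' : ℝ) * (ξ * N J) ≤ j' * (xx + 1) := mul_le_mul_of_nonneg_left hxx2 hj'0
          nlinarith
        exact_mod_cast this
    apply h.shift hk0 hm
    have e0 : ((⌊(ξ - ε) * N J⌋₊ + (j' * xx - i * N J) / k : ℕ) : ℝ) ≤ ξ * N J := by
      push_cast
      have e1 : (((j' * xx - i * N J) / k : ℕ) : ℝ) ≤ ε * N J := by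
        refine (Nat.cast_div_le).trans ?_
        rw [div_le_iff₀ hk0', Nat.cast_sub hm]
        push_cast
        have e2 : (j' : ℝ) * xx - i * N J ≤ 2 * N J := by
          have e3 : (j' : ℝ) * xx ≤ j' * (ξ * N J) := mul_le_mul_of_nonneg_left hxx1 hj'0
          have e4 : (j' : ℝ) * ξ * N J ≤ (i + 2) * N J := mul_le_mul_of_nonneg_right hi1 hN0
          nlinarith
        have e3 : 8 * (N J : ℝ) ≤ ε * k * N J := mul_le_mul_of_nonneg_right hkε hN0
        nlinarith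
      have e2 : (⌊(ξ - ε) * N J⌋₊ : ℝ) ≤ (ξ - ε) * N J :=
        Nat.floor_le (mul_nonneg (by linarith) hN0)
      linarith
    rw [hxx]
    exact Nat.le_floor (by rw [← hxx]; exact e0)
  have s4 : f (N J) ⌊(η + ε) * N J⌋₊ (j * N J) ≤
      f (N J) ⌊(ξ - ε) * N J⌋₊ (i * N J) + 2 * ((2 + Z) * k) := by
    have := h2
    omega
  have s5 : (f (N J) ⌊(η + ε) * N J⌋₊ (j * N J) : ℝ) ≤
      f (N J) ⌊(ξ - ε) * N J⌋₊ (i * N J) + 2 * ((2 + Z) * k) := by
    exact_mod_cast s4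
  have s6 : c * (i : ℝ) ≤ c * ξ / η * j := by
    have e1 : c * (i : ℝ) ≤ c * (j' * ξ) := mul_le_mul_of_nonneg_left hi3 hc
    have e2 : c * (j' * ξ) ≤ c * ξ / η * j := by
      rw [div_mul_eq_mul_div, le_div_iff₀ hη0]
      have e3 : 0 ≤ c * ξ := by positivity
      calc c * (j' * ξ) * η = c * ξ * (j' * η) := by ring
        _ ≤ c * ξ * j := mul_le_mul_of_nonneg_left hj'1 e3
    exact e1.trans e2
  linarith

theorem rho_contra (h : FF f Z C) (hN : ∀ J, J < N J) (hξ : 2 ≤ ξ) (hξη : ξ < η) (hη : η ≤ 3)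
    (hgood : ∀ J, ∀ j ≤ J, f (N J - j) ⌊ξ * N J⌋₊ (j * ⌊ξ * N J⌋₊) =
      f (N J) ⌊ξ * N J⌋₊ (j * ⌊ξ * N J⌋₊))
    (hE1 : ∀ j : ℕ, ∀ᶠ J in UU, f (N J) (⌊ξ * N J⌋₊ - j) (j * N J) =
      f (N J) (⌊η * N J⌋₊ - j) (j * N J))
    (hE2 : ∀ j : ℕ, ∀ᶠ J in UU, f (N J - j) ⌊ξ * N J⌋₊ (j * ⌊ξ * N J⌋₊) =
      f (N J - j) ⌊η * N J⌋₊ (j * ⌊η * N J⌋₊))
    (hcξ : ContinuousAt (rho f N) ξ) (hcη : ContinuousAt (rho f N) η) : False := by
  have hη0 : 0 < η := by linarith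
  have hξ0 : 0 < ξ := by linarith
  have hlim : Tendsto (fun n : ℕ => 1 / ((n : ℝ) + 1)) atTop (𝓝 0) :=
    tendsto_one_div_add_atTop_nhds_zero_nat
  have hpos : ∀ n : ℕ, 0 < 1 / ((n : ℝ) + 1) := fun n => by positivity
  have hle : ∀ n : ℕ, 1 / ((n : ℝ) + 1) ≤ 1 := by
    intro n
    rw [div_le_one (by positivity)]
    have : (0 : ℝ) ≤ n := Nat.cast_nonneg n
    linarith
  have hA : rho f N ξ ≤ rho f N η := by
    have t1 : Tendsto (fun n : ℕ => rho f N (η - 1 / ((n : ℝ) + 1))) atTop (𝓝 (rho f N η)) := by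
      have t2 : Tendsto (fun n : ℕ => η - 1 / ((n : ℝ) + 1)) atTop (𝓝 η) := by
        have := tendsto_const_nhds (x := η) |>.sub hlim
        simpa using this
      exact hcη.tendsto.comp t2
    refine ge_of_tendsto t1 (Eventually.of_forall fun n => ?_)
    apply csInf_le_csInf (rho_set_bdd ξ) (rho_set_nonempty h _)
    intro c hc
    have e1 : max (η - 1 / ((n : ℝ) + 1)) 1 = η - 1 / ((n : ℝ) + 1) :=
      max_eq_left (by linarith [hle n])
    have e2 : max ξ 1 = ξ := max_eq_left (by linarith)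
    rw [mem_ofPred_eq, e1] at hc
    rw [mem_ofPred_eq, e2]
    exact ⟨hc.1, stepA h hN (by linarith) hE1 (hpos n) (hle n) hc.2⟩
  have hB : rho f N η ≤ ξ / η * rho f N ξ := by
    have t1 : Tendsto (fun n : ℕ => rho f N (η + 1 / ((n : ℝ) + 1))) atTop (𝓝 (rho f N η)) := by
      have t2 : Tendsto (fun n : ℕ => η + 1 / ((n : ℝ) + 1)) atTop (𝓝 η) := by
        have := tendsto_const_nhds (x := η) |>.add hlim
        simpa using this
      exact hcη.tendsto.comp t2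
    have t3 : Tendsto (fun n : ℕ => ξ / η * rho f N (ξ - 1 / ((n : ℝ) + 1))) atTop
        (𝓝 (ξ / η * rho f N ξ)) := by
      have t2 : Tendsto (fun n : ℕ => ξ - 1 / ((n : ℝ) + 1)) atTop (𝓝 ξ) := by
        have := tendsto_const_nhds (x := ξ) |>.sub hlim
        simpa using this
      exact (hcξ.tendsto.comp t2).const_mul _
    refine le_of_tendsto_of_tendsto' t1 t3 fun n => ?_
    have e0 : rho f N (η + 1 / ((n : ℝ) + 1)) * (η / ξ) ≤ rho f N (ξ - 1 / ((n : ℝ) + 1)) := by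
      apply le_csInf (rho_set_nonempty h _)
      intro c hc
      have e1 : max (ξ - 1 / ((n : ℝ) + 1)) 1 = ξ - 1 / ((n : ℝ) + 1) :=
        max_eq_left (by linarith [hle n])
      rw [mem_ofPred_eq, e1] at hc
      have e2 : max (η + 1 / ((n : ℝ) + 1)) 1 = η + 1 / ((n : ℝ) + 1) :=
        max_eq_left (by linarith [hpos n])
      have e3 : rho f N (η + 1 / ((n : ℝ) + 1)) ≤ c * ξ / η := by
        apply csInf_le (rho_set_bdd _)
        rw [mem_ofPred_eq, e2]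
        exact ⟨by have := hc.1; positivity,
          stepB h hN hξ hξη.le hη hgood hE2 (hpos n) (hle n) hc.1 hc.2⟩
      calc rho f N (η + 1 / ((n : ℝ) + 1)) * (η / ξ) ≤ c * ξ / η * (η / ξ) :=
            mul_le_mul_of_nonneg_right e3 (by positivity)
        _ = c := by field_simp
    calc rho f N (η + 1 / ((n : ℝ) + 1)) =
          ξ / η * (rho f N (η + 1 / ((n : ℝ) + 1)) * (η / ξ)) := by field_simp
      _ ≤ _ := mul_le_mul_of_nonneg_left e0 (by positivity)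
  have hp := rho_pos h hN (ξ := η) (by linarith)
  have h1 : ξ / η * rho f N ξ ≤ ξ / η * rho f N η :=
    mul_le_mul_of_nonneg_left hA (by positivity)
  have h2 : ξ / η < 1 := (div_lt_one hη0).2 hξη
  nlinarith

/-- the abstract theorem -/
theorem abs_main (h : FF f Z C) : ∃ (N : ℕ → ℕ) (E : Set ℝ), (∀ J, J < N J) ∧
    E ⊆ Icc 2 3 ∧ ¬ E.Countable ∧ ∀ ξ ∈ E, ∀ η ∈ E,
      (∀ j : ℕ, ∀ᶠ J in UU, f (N J) (⌊ξ * N J⌋₊ - j) (j * N J) =
        f (N J) (⌊η * N J⌋₊ - j) (j * N J)) →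
      (∀ j : ℕ, ∀ᶠ J in UU, f (N J - j) ⌊ξ * N J⌋₊ (j * ⌊ξ * N J⌋₊) =
        f (N J - j) ⌊η * N J⌋₊ (j * ⌊η * N J⌋₊)) → ξ = η := by
  choose N bad hN hb hg using h.good_one
  refine ⟨N, {ξ : ℝ | ξ ∈ Icc (2 : ℝ) 3 ∧ ∀ J, ⌊ξ * N J⌋₊ ∉ bad J} \
    {ξ | ¬ ContinuousAt (rho f N) ξ}, hN, fun ξ hξ => hξ.1.1,
    good_set N bad (fun J => (Nat.zero_le J).trans_lt (hN J)) hb _
      (rho_antitone h).countable_not_continuousAt, ?_⟩
  have hgood : ∀ ξ ∈ Icc (2 : ℝ) 3, (∀ J, ⌊ξ * N J⌋₊ ∉ bad J) → ∀ J, ∀ j ≤ J,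
      f (N J - j) ⌊ξ * N J⌋₊ (j * ⌊ξ * N J⌋₊) = f (N J) ⌊ξ * N J⌋₊ (j * ⌊ξ * N J⌋₊) := by
    intro ξ hξ hξb J j hj
    refine hg J _ ?_ (hξb J) j hj
    have h0 : (0 : ℝ) ≤ N J := Nat.cast_nonneg _
    have h1 : (⌊ξ * N J⌋₊ : ℝ) ≤ 3 * N J := by
      refine (Nat.floor_le (mul_nonneg (by linarith [hξ.1]) h0)).trans ?_
      exact mul_le_mul_of_nonneg_right hξ.2 h0
    exact_mod_cast h1
  intro ξ hξ η hη hE1 hE2
  obtain ⟨⟨hξ1, hξb⟩, hξc⟩ := hξ
  obtain ⟨⟨hη1, hηb⟩, hηc⟩ := hη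
  simp only [mem_ofPred_eq, not_not] at hξc hηc
  rcases lt_trichotomy ξ η with hlt | heq | hlt
  · exact (rho_contra h hN hξ1.1 hlt hη1.2 (hgood ξ hξ1 hξb) hE1 hE2 hξc hηc).elim
  · exact heq
  · refine (rho_contra h hN hη1.1 hlt hξ1.2 (hgood η hη1 hηb) ?_ ?_ hηc hξc).elim
    · intro j
      filter_upwards [hE1 j] with J hJ
      exact hJ.symm
    · intro j
      filter_upwards [hE2 j] with J hJ
      exact hJ.symm

end Pool.Agent.Lib.MP_eca5e6_al.C2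
end

section

/-!
# MP_eca5e6_al, class 2: word length
-/

set_option autoImplicit false

namespace Pool.Agent.Lib.MP_eca5e6_al.C2

open Filter Set Topology

variable {G : Type} [Group G] {S : Finset G} {Γ : SimpleGraph G}

/-- word length -/
noncomputable def ln (Γ : SimpleGraph G) (g : G) : ℕ := Γ.dist 1 g

theorem dist_eq_ln (hS : Subgroup.closure (S : Set G) = ⊤)
    (hΓ : Γ = SimpleGraph.fromRel (fun g h : G => g⁻¹ * h ∈ S)) (g h : G) :
    Γ.dist g h = ln Γ (g⁻¹ * h) := by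
  have := cay_dist_mul hS hΓ g⁻¹ g h
  rw [inv_mul_cancel] at this
  exact this.symm

theorem ln_mul (hS : Subgroup.closure (S : Set G) = ⊤)
    (hΓ : Γ = SimpleGraph.fromRel (fun g h : G => g⁻¹ * h ∈ S)) (g h : G) :
    ln Γ (g * h) ≤ ln Γ g + ln Γ h := by
  have h1 := (cay_conn hS hΓ).dist_triangle (u := 1) (v := g) (w := g * h)
  rw [dist_eq_ln hS hΓ g (g * h), inv_mul_cancel_left] at h1
  exact h1

theorem ln_inv (hS : Subgroup.closure (S : Set G) = ⊤)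
    (hΓ : Γ = SimpleGraph.fromRel (fun g h : G => g⁻¹ * h ∈ S)) (g : G) :
    ln Γ g⁻¹ = ln Γ g := by
  have h1 := dist_eq_ln hS hΓ g 1
  rw [mul_one] at h1
  rw [← h1, SimpleGraph.dist_comm]
  rfl

theorem ln_one (Γ : SimpleGraph G) : ln Γ 1 = 0 := SimpleGraph.dist_self

theorem ln_letter (hΓ : Γ = SimpleGraph.fromRel (fun g h : G => g⁻¹ * h ∈ S)) {s : G}
    (hs : s ∈ S ∨ s⁻¹ ∈ S) : ln Γ s ≤ 1 := by
  by_cases h1 : s = 1
  · rw [h1, ln_one]
    exact Nat.zero_le _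
  · have : Γ.Adj 1 s := by
      rw [cay_adj hΓ]
      refine ⟨fun h => h1 h.symm, ?_⟩
      simpa using hs
    exact (SimpleGraph.dist_eq_one_iff_adj.2 this).le

theorem ln_pow_le (hS : Subgroup.closure (S : Set G) = ⊤)
    (hΓ : Γ = SimpleGraph.fromRel (fun g h : G => g⁻¹ * h ∈ S)) (g : G) (n : ℕ) :
    ln Γ (g ^ n) ≤ n * ln Γ g := by
  induction n with
  | zero => rw [pow_zero, ln_one]; exact Nat.zero_le _
  | succ n ih =>
    rw [pow_succ]
    refine (ln_mul hS hΓ _ _).trans ?_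
    rw [add_mul, one_mul]
    exact Nat.add_le_add_right ih _

theorem ln_pow_letter (hS : Subgroup.closure (S : Set G) = ⊤)
    (hΓ : Γ = SimpleGraph.fromRel (fun g h : G => g⁻¹ * h ∈ S)) {s : G}
    (hs : s ∈ S ∨ s⁻¹ ∈ S) (n : ℕ) : ln Γ (s ^ n) ≤ n :=
  (ln_pow_le hS hΓ s n).trans ((Nat.mul_le_mul_left n (ln_letter hΓ hs)).trans (by simp))

/-- geodesic words -/
theorem exists_word (hS : Subgroup.closure (S : Set G) = ⊤)
    (hΓ : Γ = SimpleGraph.fromRel (fun g h : G => g⁻¹ * h ∈ S)) (n : ℕ) :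
    ∀ g : G, ln Γ g = n → ∃ w : List G, (∀ s ∈ w, s ∈ S ∨ s⁻¹ ∈ S) ∧ w.prod = g ∧
      w.length = n := by
  induction n with
  | zero =>
    intro g hg
    have h1 : (1 : G) = g := ((cay_conn hS hΓ).dist_eq_zero_iff).1 hg
    exact ⟨[], by simp, by simpa using h1, rfl⟩
  | succ n ih =>
    intro g hg
    obtain ⟨y, hy1, hy2⟩ := cay_geo hS hΓ 1 g n hg
    obtain ⟨w, hw1, hw2, hw3⟩ := ih y hy1
    have h2 := ((cay_adj hΓ y g).1 (SimpleGraph.dist_eq_one_iff_adj.1 hy2)).2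
    refine ⟨w ++ [y⁻¹ * g], ?_, ?_, ?_⟩
    · intro s hs
      rw [List.mem_append, List.mem_singleton] at hs
      rcases hs with hs | hs
      · exact hw1 s hs
      · rw [hs]
        simpa using h2
    · rw [List.prod_append, hw2]
      simp
    · simp [hw3]

/-! ### the relation `a b = b a z` -/

section rel

variable {a b z : G}

theorem pow_swap (hab : a * b = b * a * z) (haz : Commute a z) (hbz : Commute b z) (j N : ℕ) :
    a ^ j * b ^ N = b ^ N * a ^ j * z ^ (j * N) := by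
  have h1 : ∀ N : ℕ, a * b ^ N = b ^ N * a * z ^ N := by
    intro N
    induction N with
    | zero => simp
    | succ N ih =>
      calc a * b ^ (N + 1) = (a * b ^ N) * b := by rw [pow_succ, mul_assoc]
        _ = b ^ N * a * z ^ N * b := by rw [ih]
        _ = b ^ N * a * (z ^ N * b) := by group
        _ = b ^ N * a * (b * z ^ N) := by rw [(hbz.symm.pow_left N).eq]
        _ = b ^ N * (a * b) * z ^ N := by group
        _ = b ^ N * (b * a * z) * z ^ N := by rw [hab]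
        _ = _ := by rw [pow_succ b, pow_succ z]; group
  induction j with
  | zero => simp
  | succ j ih =>
    calc a ^ (j + 1) * b ^ N = a * (a ^ j * b ^ N) := by rw [pow_succ', mul_assoc]
      _ = a * (b ^ N * a ^ j * z ^ (j * N)) := by rw [ih]
      _ = (a * b ^ N) * (a ^ j * z ^ (j * N)) := by group
      _ = b ^ N * a * z ^ N * (a ^ j * z ^ (j * N)) := by rw [h1]
      _ = b ^ N * a * (z ^ N * a ^ j) * z ^ (j * N) := by group
      _ = b ^ N * a * (a ^ j * z ^ N) * z ^ (j * N) := by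
          rw [((haz.symm.pow_left N).pow_right j).eq]
      _ = b ^ N * (a * a ^ j) * (z ^ N * z ^ (j * N)) := by group
      _ = b ^ N * a ^ (j + 1) * z ^ ((j + 1) * N) := by
          rw [← pow_succ', ← pow_add]
          congr 2
          ring

theorem left_pull (hab : a * b = b * a * z) (haz : Commute a z) (hbz : Commute b z)
    {j N x : ℕ} (hj : j ≤ x) :
    (a ^ j)⁻¹ * (b ^ N * a ^ x) = b ^ N * a ^ (x - j) * (z ^ (j * N))⁻¹ := by
  rw [inv_mul_eq_iff_eq_mul]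
  have hx : x = j + (x - j) := by omega
  have hc : Commute (z ^ (j * N)) (a ^ (x - j)) := (haz.symm.pow_left _).pow_right _
  calc b ^ N * a ^ x = b ^ N * a ^ j * a ^ (x - j) := by
        conv_lhs => rw [hx, pow_add]
        rw [mul_assoc]
    _ = b ^ N * a ^ j * z ^ (j * N) * a ^ (x - j) * (z ^ (j * N))⁻¹ := by
        rw [mul_assoc (b ^ N * a ^ j), hc.eq, ← mul_assoc, mul_inv_cancel_right]
    _ = a ^ j * b ^ N * a ^ (x - j) * (z ^ (j * N))⁻¹ := by rw [pow_swap hab haz hbz j N]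
    _ = _ := by group

theorem right_pull (hab : a * b = b * a * z) (haz : Commute a z) (hbz : Commute b z)
    {j N x : ℕ} (hj : j ≤ N) :
    b ^ N * a ^ x * (b ^ j)⁻¹ = b ^ (N - j) * a ^ x * (z ^ (j * x))⁻¹ := by
  rw [mul_inv_eq_iff_eq_mul]
  have hN : N = (N - j) + j := by omega
  have hc : Commute ((z ^ (j * x))⁻¹) (b ^ j) := ((hbz.symm.pow_left _).pow_right _).inv_left
  calc b ^ N * a ^ x = b ^ (N - j) * (b ^ j * a ^ x) := by
        conv_lhs => rw [hN, pow_add]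
        rw [mul_assoc]
    _ = b ^ (N - j) * (b ^ j * a ^ x * z ^ (x * j)) * (z ^ (j * x))⁻¹ := by
        rw [mul_comm x j]
        group
    _ = b ^ (N - j) * (a ^ x * b ^ j) * (z ^ (j * x))⁻¹ := by rw [pow_swap hab haz hbz x j]
    _ = b ^ (N - j) * a ^ x * (b ^ j * (z ^ (j * x))⁻¹) := by group
    _ = b ^ (N - j) * a ^ x * ((z ^ (j * x))⁻¹ * b ^ j) := by rw [hc.eq]
    _ = _ := by group

theorem conj_shift (hab : a * b = b * a * z) (haz : Commute a z) (hbz : Commute b z)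
    (y x m x' k : ℕ) : b ^ y * a ^ (x + x') * (z ^ (m + k * x'))⁻¹ =
      b ^ y * a ^ x * (z ^ m)⁻¹ * (b ^ k * a ^ x' * (b ^ k)⁻¹) := by
  have h1 := right_pull hab haz hbz (j := k) (N := k) (x := x') le_rfl
  rw [Nat.sub_self, pow_zero, one_mul] at h1
  have hc : Commute ((z ^ m)⁻¹) (a ^ x') := ((haz.symm.pow_left _).pow_right _).inv_left
  have hz : (z ^ (m + k * x'))⁻¹ = (z ^ m)⁻¹ * (z ^ (k * x'))⁻¹ := by
    rw [add_comm, pow_add, mul_inv_rev]
  rw [h1]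
  calc b ^ y * a ^ (x + x') * (z ^ (m + k * x'))⁻¹ =
        b ^ y * a ^ x * (a ^ x' * (z ^ m)⁻¹) * (z ^ (k * x'))⁻¹ := by
        rw [hz, pow_add a]
        simp only [mul_assoc]
    _ = b ^ y * a ^ x * ((z ^ m)⁻¹ * a ^ x') * (z ^ (k * x'))⁻¹ := by rw [hc.eq]
    _ = _ := by group

end rel

/-- the function `f` has the properties of the abstract part -/
theorem ff_of (hS : Subgroup.closure (S : Set G) = ⊤)
    (hΓ : Γ = SimpleGraph.fromRel (fun g h : G => g⁻¹ * h ∈ S)) {a b z : G}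
    (ha : a ∈ S ∨ a⁻¹ ∈ S) (hb : b ∈ S ∨ b⁻¹ ∈ S)
    (hab : a * b = b * a * z) (haz : Commute a z) (hbz : Commute b z)
    {μ : G → ℝ} (hμ : ∀ g h, μ (g * h) = μ g + μ h) (hμS : ∀ s, s ∈ S ∨ s⁻¹ ∈ S → μ s ≤ 1)
    (hμa : μ a = 1) (hμb : μ b = 1) {C : ℕ}
    (hC : ∀ y x m e : ℕ, ln Γ (b ^ y * a ^ x * (z ^ m)⁻¹) = x + y + e →
      m ≤ C * (e + 1) * (x + y + e + 1)) :
    FF (fun y x m => ln Γ (b ^ y * a ^ x * (z ^ m)⁻¹) - (y + x)) (ln Γ z) C ∧
    ∀ y x m, ln Γ (b ^ y * a ^ x * (z ^ m)⁻¹) =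
      (ln Γ (b ^ y * a ^ x * (z ^ m)⁻¹) - (y + x)) + (y + x) := by
  have hμ1 : μ 1 = 0 := by
    have := hμ 1 1
    rw [mul_one] at this
    linarith
  have hμinv : ∀ g, μ g⁻¹ = -μ g := by
    intro g
    have := hμ g g⁻¹
    rw [mul_inv_cancel, hμ1] at this
    linarith
  have hμpow : ∀ (g : G) (n : ℕ), μ (g ^ n) = n * μ g := by
    intro g n
    induction n with
    | zero => simp [hμ1]
    | succ n ih => rw [pow_succ, hμ, ih]; push_cast; ring
  have hμz : μ z = 0 := by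
    have h1 := congrArg μ hab
    rw [hμ, hμ, hμ] at h1
    linarith
  have hμln : ∀ g, μ g ≤ ln Γ g := by
    intro g
    obtain ⟨w, hw1, hw2, hw3⟩ := exists_word hS hΓ (ln Γ g) g rfl
    have h1 : ∀ w : List G, (∀ s ∈ w, s ∈ S ∨ s⁻¹ ∈ S) → μ w.prod ≤ w.length := by
      intro w
      induction w with
      | nil => intro _; simp [hμ1]
      | cons s w ih =>
        intro hw
        rw [List.prod_cons, hμ, List.length_cons]
        have h2 := hμS s (hw s (List.mem_cons_self ..))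
        have h3 := ih fun t ht => hw t (List.mem_cons_of_mem _ ht)
        push_cast
        linarith
    rw [← hw2]
    refine (h1 w hw1).trans ?_
    rw [hw3, hw2]
  have hlow : ∀ y x m : ℕ, y + x ≤ ln Γ (b ^ y * a ^ x * (z ^ m)⁻¹) := by
    intro y x m
    have h1 := hμln (b ^ y * a ^ x * (z ^ m)⁻¹)
    rw [hμ, hμ, hμinv, hμpow, hμpow, hμpow, hμa, hμb, hμz] at h1
    have h2 : ((y + x : ℕ) : ℝ) ≤ ln Γ (b ^ y * a ^ x * (z ^ m)⁻¹) := by
      push_cast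
      linarith
    exact_mod_cast h2
  have hla : ln Γ a ≤ 1 := ln_letter hΓ ha
  have hlb : ln Γ b ≤ 1 := ln_letter hΓ hb
  refine ⟨⟨?_, ?_, ?_, ?_, ?_, ?_⟩, fun y x m => by have := hlow y x m; omega⟩
  · intro y x m
    have e : b ^ y * a ^ (x + 1) * (z ^ m)⁻¹ = (b ^ y * a ^ x * (z ^ m)⁻¹) * a := by
      have hc : Commute ((z ^ m)⁻¹) a := ((haz.symm).pow_left m).inv_left
      rw [mul_assoc (b ^ y * a ^ x), hc.eq, pow_succ]
      group
    have h1 := ln_mul hS hΓ (b ^ y * a ^ x * (z ^ m)⁻¹) a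
    rw [← e] at h1
    have h2 := hlow y x m
    have h3 := hlow y (x + 1) m
    omega
  · intro y x m
    have e : b ^ (y + 1) * a ^ x * (z ^ m)⁻¹ = b * (b ^ y * a ^ x * (z ^ m)⁻¹) := by
      rw [pow_succ']
      group
    have h1 := ln_mul hS hΓ b (b ^ y * a ^ x * (z ^ m)⁻¹)
    rw [← e] at h1
    have h2 := hlow y x m
    have h3 := hlow (y + 1) x m
    omega
  · intro y x
    have h1 := ln_mul hS hΓ (b ^ y) (a ^ x)
    have h2 := ln_pow_letter hS hΓ hb y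
    have h3 := ln_pow_letter hS hΓ ha x
    simp only [pow_zero, inv_one, mul_one]
    omega
  · intro y x m x' k
    have e := conj_shift hab haz hbz y x m x' k
    have h1 := ln_mul hS hΓ (b ^ y * a ^ x * (z ^ m)⁻¹) (b ^ k * a ^ x' * (b ^ k)⁻¹)
    rw [← e] at h1
    have h2 := ln_mul hS hΓ (b ^ k * a ^ x') (b ^ k)⁻¹
    have h3 := ln_mul hS hΓ (b ^ k) (a ^ x')
    rw [ln_inv hS hΓ] at h2
    have h4 := ln_pow_letter hS hΓ hb k
    have h5 := ln_pow_letter hS hΓ ha x'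
    have h6 := hlow y x m
    have h7 := hlow y (x + x') (m + k * x')
    omega
  · intro y x m r
    have e : b ^ y * a ^ x * (z ^ (m + r))⁻¹ = (b ^ y * a ^ x * (z ^ m)⁻¹) * (z ^ r)⁻¹ := by
      rw [add_comm m r, pow_add]
      group
    have h1 := ln_mul hS hΓ (b ^ y * a ^ x * (z ^ m)⁻¹) (z ^ r)⁻¹
    rw [← e, ln_inv hS hΓ] at h1
    have h2 := ln_pow_le hS hΓ z r
    have h3 := hlow y x m
    have h4 := hlow y x (m + r)
    rw [mul_comm] at h2
    omega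
  · intro y x m
    have h1 := hlow y x m
    exact hC y x m (ln Γ (b ^ y * a ^ x * (z ^ m)⁻¹) - (y + x)) (by omega)

end Pool.Agent.Lib.MP_eca5e6_al.C2
end

section

/-!
# MP_eca5e6_al, class 2: from the abstract theorem to horofunctions
-/

set_option autoImplicit false

namespace Pool.Agent.Lib.MP_eca5e6_al.C2

open Filter Set Topology

theorem exists_lim {V : Type} {d : V → V → ℕ} (h : GeoDist d) (o : V) (x : ℕ → V)
    (U : Ultrafilter ℕ) : ∃ k ∈ closure (range (hb d o)), ∀ z, ∀ᶠ n in (U : Filter ℕ),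
      hb d o (x n) z = k z := by
  obtain ⟨k, hk, hlim⟩ := (compact_closure h o).ultrafilter_le_nhds
    (U.map fun n => hb d o (x n)) (by
      rw [Filter.le_principal_iff]
      exact Filter.mem_map.2 (Filter.univ_mem' fun n => subset_closure ⟨x n, rfl⟩))
  refine ⟨k, hk, fun z => ?_⟩
  have h1 : {f : V → ℤ | ∀ w ∈ ({z} : Set V), f w = k w} ∈ 𝓝 k :=
    (isOpen_agree {z} (Set.finite_singleton z) k).mem_nhds fun _ _ => rfl
  have h2 := hlim h1
  have h3 : ∀ᶠ n in (U : Filter ℕ), ∀ w ∈ ({z} : Set V), hb d o (x n) w = k w := h2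
  filter_upwards [h3] with n hn
  exact hn z rfl

variable {G : Type} [Group G] {S : Finset G} {Γ : SimpleGraph G}

theorem hb_eq_ln (hS : Subgroup.closure (S : Set G) = ⊤)
    (hΓ : Γ = SimpleGraph.fromRel (fun g h : G => g⁻¹ * h ∈ S)) (x g : G) :
    hb (fun x y : G => Γ.dist x y) 1 x g = (ln Γ (g⁻¹ * x) : ℤ) - ln Γ x := by
  unfold hb
  simp only
  rw [dist_eq_ln hS hΓ g x]
  rfl

theorem countable_group (hS : Subgroup.closure (S : Set G) = ⊤)
    (hΓ : Γ = SimpleGraph.fromRel (fun g h : G => g⁻¹ * h ∈ S)) : Countable G := by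
  have h1 : (⋃ n : ℕ, {y : G | Γ.dist 1 y ≤ n}).Countable :=
    Set.countable_iUnion fun n => (cay_fin hS hΓ 1 n).countable
  have h2 : (⋃ n : ℕ, {y : G | Γ.dist 1 y ≤ n}) = univ := by
    ext y
    simp only [mem_iUnion, mem_univ, iff_true]
    exact ⟨Γ.dist 1 y, (le_refl _ : Γ.dist 1 y ≤ Γ.dist 1 y)⟩
  rw [h2] at h1
  exact Set.countable_univ_iff.1 h1

theorem uncountable_of_ff (hS : Subgroup.closure (S : Set G) = ⊤)
    (hΓ : Γ = SimpleGraph.fromRel (fun g h : G => g⁻¹ * h ∈ S)) {a b z : G}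
    (hab : a * b = b * a * z) (haz : Commute a z) (hbz : Commute b z) {Z C : ℕ}
    (hFF : FF (fun y x m => ln Γ (b ^ y * a ^ x * (z ^ m)⁻¹) - (y + x)) Z C)
    (hlen : ∀ y x m, ln Γ (b ^ y * a ^ x * (z ^ m)⁻¹) =
      (ln Γ (b ^ y * a ^ x * (z ^ m)⁻¹) - (y + x)) + (y + x)) :
    ¬ (closure (range (hb (fun x y : G => Γ.dist x y) 1)) \
      range (hb (fun x y : G => Γ.dist x y) 1)).Countable := by
  intro hcount
  obtain ⟨N, E, hN, hE1, hE2, hE3⟩ := abs_main hFF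
  set d : G → G → ℕ := fun x y : G => Γ.dist x y with hd
  set K := closure (range (hb d 1)) with hK
  have hG := countable_group hS hΓ
  have hKc : K.Countable := by
    have h1 : (range (hb d 1)).Countable := Set.countable_range _
    refine (hcount.union h1).mono ?_
    intro k hk
    by_cases hk1 : k ∈ range (hb d 1)
    · exact Or.inr hk1
    · exact Or.inl ⟨hk, hk1⟩
  set X : ℝ → ℕ → G := fun ξ J => b ^ N J * a ^ ⌊ξ * N J⌋₊ with hX
  have h1 := fun ξ : ℝ => exists_lim (cay_geoDist hS hΓ) 1 (X ξ) (hyperfilter ℕ)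
  have h2 := fun ξ : ℝ => exists_lim (cay_geoDist hS hΓ) 1 (fun J => (X ξ J)⁻¹) (hyperfilter ℕ)
  choose k1 hk1 hk1' using h1
  choose k2 hk2 hk2' using h2
  apply hE2
  refine Set.MapsTo.countable_of_injOn (f := fun ξ => (k1 ξ, k2 ξ)) (t := K ×ˢ K)
    (fun ξ _ => ⟨hk1 ξ, hk2 ξ⟩) ?_ (hKc.prod hKc)
  intro ξ hξ η hη heq
  have heq1 : k1 ξ = k1 η := (Prod.mk.inj heq).1
  have heq2 : k2 ξ = k2 η := (Prod.mk.inj heq).2
  have hlen0 : ∀ y x, ln Γ (b ^ y * a ^ x) = y + x := by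
    intro y x
    have e1 := hFF.h0 y x
    have e2 := hlen y x 0
    simp only [pow_zero, inv_one, mul_one] at e1 e2
    omega
  have hbig : ∀ j : ℕ, ∀ ζ ∈ E, ∀ᶠ J in UU, j ≤ ⌊ζ * N J⌋₊ := by
    intro j ζ hζ
    filter_upwards [ev_ge j] with J hJ
    apply Nat.le_floor
    have e1 := (hE1 hζ).1
    have e2 : (J : ℝ) ≤ N J := by exact_mod_cast (hN J).le
    have e3 : (j : ℝ) ≤ J := by exact_mod_cast hJ
    have e4 : (0 : ℝ) ≤ N J := Nat.cast_nonneg _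
    nlinarith
  have v1 : ∀ j J : ℕ, ∀ ζ : ℝ, j ≤ ⌊ζ * N J⌋₊ → hb d 1 (X ζ J) (a ^ j) =
      ((ln Γ (b ^ N J * a ^ (⌊ζ * N J⌋₊ - j) * (z ^ (j * N J))⁻¹) -
        (N J + (⌊ζ * N J⌋₊ - j)) : ℕ) : ℤ) - j := by
    intro j J ζ hj
    rw [hb_eq_ln hS hΓ, left_pull hab haz hbz hj, hlen0]
    have e1 := hlen (N J) (⌊ζ * N J⌋₊ - j) (j * N J)
    push_cast [← @Nat.cast_inj ℤ] at *
    omega
  have v2 : ∀ j J : ℕ, ∀ ζ : ℝ, j ≤ N J → hb d 1 (X ζ J)⁻¹ (b ^ j)⁻¹ =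
      ((ln Γ (b ^ (N J - j) * a ^ ⌊ζ * N J⌋₊ * (z ^ (j * ⌊ζ * N J⌋₊))⁻¹) -
        (N J - j + ⌊ζ * N J⌋₊) : ℕ) : ℤ) - j := by
    intro j J ζ hj
    have e0 : (b ^ j)⁻¹⁻¹ * (X ζ J)⁻¹ = (X ζ J * (b ^ j)⁻¹)⁻¹ := (mul_inv_rev _ _).symm
    rw [hb_eq_ln hS hΓ, e0, ln_inv hS hΓ, ln_inv hS hΓ, right_pull hab haz hbz hj, hlen0]
    have e1 := hlen (N J - j) ⌊ζ * N J⌋₊ (j * ⌊ζ * N J⌋₊)
    push_cast [← @Nat.cast_inj ℤ] at *
    omega
  apply hE3 ξ hξ η hη
  · intro j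
    filter_upwards [hbig j ξ hξ, hbig j η hη, hk1' ξ (a ^ j), hk1' η (a ^ j)] with J j1 j2 j3 j4
    rw [v1 j J ξ j1] at j3
    rw [v1 j J η j2] at j4
    rw [heq1] at j3
    omega
  · intro j
    filter_upwards [ev_ge j, hk2' ξ (b ^ j)⁻¹, hk2' η (b ^ j)⁻¹] with J j1 j3 j4
    have j2 : j ≤ N J := j1.trans (hN J).le
    rw [v2 j J ξ j2] at j3
    rw [v2 j J η j2] at j4
    rw [heq2] at j3
    omega

end Pool.Agent.Lib.MP_eca5e6_al.C2
end

section

/-!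
# MP_eca5e6_al: quotients by finite normal subgroups
-/

set_option autoImplicit false

namespace Pool.Agent.Lib.MP_eca5e6_al.C2

open Filter Set Topology

theorem exists_lim' {ι V : Type} {d : V → V → ℕ} (h : GeoDist d) (o : V) (x : ι → V)
    (U : Ultrafilter ι) : ∃ k ∈ closure (range (hb d o)), ∀ z, ∀ᶠ n in (U : Filter ι),
      hb d o (x n) z = k z := by
  obtain ⟨k, hk, hlim⟩ := (compact_closure h o).ultrafilter_le_nhds
    (U.map fun n => hb d o (x n)) (by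
      rw [Filter.le_principal_iff]
      exact Filter.mem_map.2 (Filter.univ_mem' fun n => subset_closure ⟨x n, rfl⟩))
  refine ⟨k, hk, fun z => ?_⟩
  have h1 : {f : V → ℤ | ∀ w ∈ ({z} : Set V), f w = k w} ∈ 𝓝 k :=
    (isOpen_agree {z} (Set.finite_singleton z) k).mem_nhds fun _ _ => rfl
  have h2 := hlim h1
  have h3 : ∀ᶠ n in (U : Filter ι), ∀ w ∈ ({z} : Set V), hb d o (x n) w = k w := h2
  filter_upwards [h3] with n hn
  exact hn z rfl

theorem exists_int_lim {ι : Type} (U : Ultrafilter ι) (f : ι → ℤ) (M : ℤ)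
    (hf : ∀ i, f i ∈ Icc (-M) M) : ∃ c, ∀ᶠ i in (U : Filter ι), f i = c := by
  obtain ⟨c, -, hlim⟩ := (Set.finite_Icc (-M) M).isCompact.ultrafilter_le_nhds (U.map f) (by
      rw [Filter.le_principal_iff]
      exact Filter.mem_map.2 (Filter.univ_mem' hf))
  refine ⟨c, ?_⟩
  have h1 : ({c} : Set ℤ) ∈ 𝓝 c := (isOpen_discrete _).mem_nhds rfl
  exact hlim h1

variable {G : Type} [Group G] {S : Finset G} {Γ : SimpleGraph G}

theorem closure_countable (hS : Subgroup.closure (S : Set G) = ⊤)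
    (hΓ : Γ = SimpleGraph.fromRel (fun g h : G => g⁻¹ * h ∈ S))
    (hc : (closure (range (hb (fun x y : G => Γ.dist x y) 1)) \
      range (hb (fun x y : G => Γ.dist x y) 1)).Countable) :
    (closure (range (hb (fun x y : G => Γ.dist x y) 1))).Countable := by
  have hG := countable_group hS hΓ
  have h1 : (range (hb (fun x y : G => Γ.dist x y) 1)).Countable := Set.countable_range _
  refine (hc.union h1).mono ?_
  intro k hk
  by_cases hk1 : k ∈ range (hb (fun x y : G => Γ.dist x y) 1)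
  · exact Or.inr hk1
  · exact Or.inl ⟨hk, hk1⟩

theorem ln_prod_le (hS : Subgroup.closure (S : Set G) = ⊤)
    (hΓ : Γ = SimpleGraph.fromRel (fun g h : G => g⁻¹ * h ∈ S)) (w : List G)
    (hw : ∀ s ∈ w, s ∈ S ∨ s⁻¹ ∈ S) : ln Γ w.prod ≤ w.length := by
  induction w with
  | nil => rw [List.prod_nil, ln_one]; exact Nat.zero_le _
  | cons s w ih =>
    rw [List.prod_cons, List.length_cons]
    have h1 := ln_mul hS hΓ s w.prod
    have h2 := ln_letter hΓ (hw s (List.mem_cons_self ..))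
    have h3 := ih fun t ht => hw t (List.mem_cons_of_mem _ ht)
    omega

section quot

variable (hS : Subgroup.closure (S : Set G) = ⊤)
  (hΓ : Γ = SimpleGraph.fromRel (fun g h : G => g⁻¹ * h ∈ S)) (T : Subgroup G) [T.Normal]
  {S' : Finset (G ⧸ T)} (hS' : ∀ x, x ∈ S' ↔ ∃ s ∈ S, (QuotientGroup.mk' T) s = x)
  {Γ' : SimpleGraph (G ⧸ T)}
  (hΓ' : Γ' = SimpleGraph.fromRel (fun g h : G ⧸ T => g⁻¹ * h ∈ S'))

include hS hS' in
theorem quot_gen : Subgroup.closure (S' : Set (G ⧸ T)) = ⊤ := by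
  have h1 : (S' : Set (G ⧸ T)) = (QuotientGroup.mk' T) '' (S : Set G) := by
    ext x
    simp only [Finset.mem_coe, mem_image]
    exact hS' x
  rw [h1, ← MonoidHom.map_closure, hS]
  exact Subgroup.map_top_of_surjective _ (QuotientGroup.mk'_surjective T)

include hS hΓ hS' hΓ' in
theorem quot_ln_le (g : G) : ln Γ' (QuotientGroup.mk' T g) ≤ ln Γ g := by
  obtain ⟨w, hw1, hw2, hw3⟩ := exists_word hS hΓ _ g rfl
  have h1 := ln_prod_le (quot_gen hS T hS') hΓ' (w.map (QuotientGroup.mk' T)) (by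
    intro s hs
    obtain ⟨t, ht, rfl⟩ := List.mem_map.1 hs
    rcases hw1 t ht with h | h
    · exact Or.inl ((hS' _).2 ⟨t, h, rfl⟩)
    · exact Or.inr ((hS' _).2 ⟨t⁻¹, h, map_inv _ _⟩))
  rw [List.length_map, hw3, ← map_list_prod, hw2] at h1
  exact h1

include hS hΓ hS' hΓ' in
theorem quot_ln_lift (g : G) : ∃ t : T, ln Γ (g * t) ≤ ln Γ' (QuotientGroup.mk' T g) := by
  obtain ⟨w, hw1, hw2, hw3⟩ := exists_word (quot_gen hS T hS') hΓ' _ (QuotientGroup.mk' T g) rfl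
  have h1 : ∀ w : List (G ⧸ T), (∀ s ∈ w, s ∈ S' ∨ s⁻¹ ∈ S') →
      ∃ v : List G, (∀ s ∈ v, s ∈ S ∨ s⁻¹ ∈ S) ∧ v.length = w.length ∧
        QuotientGroup.mk' T v.prod = w.prod := by
    intro w
    induction w with
    | nil => intro _; exact ⟨[], by simp, rfl, by simp⟩
    | cons s w ih =>
      intro hw
      obtain ⟨v, hv1, hv2, hv3⟩ := ih fun t ht => hw t (List.mem_cons_of_mem _ ht)
      obtain ⟨r, hr, hrs⟩ : ∃ r : G, (r ∈ S ∨ r⁻¹ ∈ S) ∧ QuotientGroup.mk' T r = s := by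
        rcases hw s (List.mem_cons_self ..) with h | h
        · obtain ⟨r, hr, hrs⟩ := (hS' _).1 h
          exact ⟨r, Or.inl hr, hrs⟩
        · obtain ⟨r, hr, hrs⟩ := (hS' _).1 h
          exact ⟨r⁻¹, Or.inr (by rwa [inv_inv]), by rw [map_inv, hrs, inv_inv]⟩
      refine ⟨r :: v, ?_, by simp [hv2], by rw [List.prod_cons, List.prod_cons, map_mul, hv3, hrs]⟩
      intro t ht
      rcases List.mem_cons.1 ht with h | h
      · rw [h]; exact hr
      · exact hv1 t h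
  obtain ⟨v, hv1, hv2, hv3⟩ := h1 w hw1
  rw [hw2] at hv3
  have h2 : g⁻¹ * v.prod ∈ T := by
    have h3 : (QuotientGroup.mk' T) (g⁻¹ * v.prod) = 1 := by
      rw [map_mul, hv3, map_inv, inv_mul_cancel]
    exact (QuotientGroup.eq_one_iff _).1 h3
  refine ⟨⟨g⁻¹ * v.prod, h2⟩, ?_⟩
  show ln Γ (g * (g⁻¹ * v.prod)) ≤ _
  rw [mul_inv_cancel_left]
  exact (ln_prod_le hS hΓ v hv1).trans (by rw [hv2, hw3])

include hS hΓ hS' hΓ' in
theorem quot_ln_eq [Finite T] [Fintype T] (g : G) :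
    (ln Γ' (QuotientGroup.mk' T g) : ℤ) =
      Finset.univ.inf' ⟨1, Finset.mem_univ _⟩ (fun t : T => (ln Γ (g * t) : ℤ)) := by
  apply le_antisymm
  · apply Finset.le_inf'
    intro t _
    have h1 := quot_ln_le hS hΓ T hS' hΓ' (g * t)
    have h2 : (QuotientGroup.mk' T) (g * t) = QuotientGroup.mk' T g := by
      rw [map_mul]
      have : (QuotientGroup.mk' T) (t : G) = 1 := (QuotientGroup.eq_one_iff _).2 t.2
      rw [this, mul_one]
    rw [h2] at h1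
    exact_mod_cast h1
  · obtain ⟨t, ht⟩ := quot_ln_lift hS hΓ T hS' hΓ' g
    refine (Finset.inf'_le _ (Finset.mem_univ t)).trans ?_
    exact_mod_cast ht

theorem inf'_sub {ι : Type} [Fintype ι] (h : (Finset.univ : Finset ι).Nonempty) (f : ι → ℤ)
    (c : ℤ) : Finset.univ.inf' h (fun i => f i - c) = Finset.univ.inf' h f - c := by
  apply le_antisymm
  · obtain ⟨i, _, hi⟩ := Finset.exists_mem_eq_inf' h f
    rw [hi]
    exact Finset.inf'_le (fun i => f i - c) (Finset.mem_univ i)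
  · apply Finset.le_inf'
    intro i _
    exact sub_le_sub_right (Finset.inf'_le f (Finset.mem_univ i)) c

include hS hΓ hS' hΓ' in
/-- a finite normal subgroup may be factored out -/
theorem quot_countable [Finite T]
    (hc : (closure (range (hb (fun x y : G => Γ.dist x y) 1)) \
      range (hb (fun x y : G => Γ.dist x y) 1)).Countable) :
    (closure (range (hb (fun x y : G ⧸ T => Γ'.dist x y) 1)) \
      range (hb (fun x y : G ⧸ T => Γ'.dist x y) 1)).Countable := by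
  classical
  have : Fintype T := Fintype.ofFinite T
  have hne : (Finset.univ : Finset T).Nonempty := ⟨1, Finset.mem_univ _⟩
  set K := closure (range (hb (fun x y : G => Γ.dist x y) 1)) with hK
  have hKc : K.Countable := closure_countable hS hΓ hc
  have hKc' : Countable K := hKc.to_subtype
  have hSq := quot_gen hS T hS'
  -- the reconstruction map
  let F : (T → K × ℤ) → G → ℤ := fun Φ g =>
    Finset.univ.inf' hne (fun t => (Φ t).1.1 g + (Φ t).2) -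
      Finset.univ.inf' hne (fun t => (Φ t).2)
  have key : ∀ k ∈ closure (range (hb (fun x y : G ⧸ T => Γ'.dist x y) 1)),
      ∃ Φ : T → K × ℤ, ∀ g, k (QuotientGroup.mk' T g) = F Φ g := by
    intro k hk
    have hx : ∀ F : Finset (G ⧸ T), ∃ x : G, ∀ z ∈ F,
        hb (fun x y : G ⧸ T => Γ'.dist x y) 1 (QuotientGroup.mk' T x) z = k z := by
      intro F
      obtain ⟨f, hf, ⟨x, rfl⟩⟩ := mem_closure_iff.1 hk _
        (isOpen_agree (F : Set (G ⧸ T)) F.finite_toSet k) (fun z _ => rfl)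
      obtain ⟨x, rfl⟩ := QuotientGroup.mk'_surjective T x
      exact ⟨x, fun z hz => hf z hz⟩
    choose x hx using hx
    let U : Ultrafilter (Finset (G ⧸ T)) := Ultrafilter.of atTop
    have hU : (U : Filter (Finset (G ⧸ T))) ≤ atTop := Ultrafilter.of_le _
    have hlim := fun t : T => exists_lim' (cay_geoDist hS hΓ) 1 (fun i => x i * t) U
    choose φ hφ hφ' using hlim
    have hint : ∀ t : T, ∃ c, ∀ᶠ i in (U : Filter (Finset (G ⧸ T))),
        (ln Γ (x i * t) : ℤ) - ln Γ (x i) = c := by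
      intro t
      apply exists_int_lim U _ (ln Γ (t : G) : ℤ)
      intro i
      have h1 := ln_mul hS hΓ (x i) t
      have h2 := ln_mul hS hΓ (x i * t) (t : G)⁻¹
      rw [mul_inv_cancel_right, ln_inv hS hΓ] at h2
      constructor <;> push_cast [← @Nat.cast_le ℤ] at * <;> omega
    choose o ho using hint
    refine ⟨fun t => (⟨φ t, hφ t⟩, o t), fun g => ?_⟩
    have h1 : ∀ᶠ i in (U : Filter (Finset (G ⧸ T))), ∀ t : T,
        hb (fun x y : G => Γ.dist x y) 1 (x i * t) g = φ t g ∧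
        (ln Γ (x i * t) : ℤ) - ln Γ (x i) = o t :=
      eventually_all.2 fun t => (hφ' t g).and (ho t)
    have h2 : ∀ᶠ i in (U : Filter (Finset (G ⧸ T))), QuotientGroup.mk' T g ∈ i :=
      hU (eventually_ge_atTop {QuotientGroup.mk' T g} |>.mono fun i hi => hi (by simp))
    obtain ⟨i, hi1, hi2⟩ := (h1.and h2).exists
    rw [← hx i _ hi2, hb_eq_ln hSq hΓ']
    have e1 : (QuotientGroup.mk' T g)⁻¹ * QuotientGroup.mk' T (x i) =
        QuotientGroup.mk' T (g⁻¹ * x i) := by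
      rw [map_mul, map_inv]
    rw [e1, quot_ln_eq hS hΓ T hS' hΓ', quot_ln_eq hS hΓ T hS' hΓ']
    have e2 : ∀ t : T, (ln Γ (g⁻¹ * x i * t) : ℤ) - ln Γ (x i) = φ t g + o t := by
      intro t
      obtain ⟨a1, a2⟩ := hi1 t
      rw [hb_eq_ln hS hΓ, ← mul_assoc] at a1
      linarith
    have e3 : Finset.univ.inf' hne (fun t : T => (ln Γ (g⁻¹ * x i * t) : ℤ)) =
        Finset.univ.inf' hne (fun t : T => φ t g + o t) + ln Γ (x i) := by
      have := inf'_sub hne (fun t : T => (ln Γ (g⁻¹ * x i * t) : ℤ)) (ln Γ (x i))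
      simp only [e2] at this
      linarith
    have e4 : Finset.univ.inf' hne (fun t : T => (ln Γ (x i * t) : ℤ)) =
        Finset.univ.inf' hne o + ln Γ (x i) := by
      have := inf'_sub hne (fun t : T => (ln Γ (x i * t) : ℤ)) (ln Γ (x i))
      have e5 : (fun t : T => (ln Γ (x i * t) : ℤ) - ln Γ (x i)) = o := funext fun t => (hi1 t).2
      rw [e5] at this
      linarith
    rw [e3, e4]
    simp only [F]
    ring
  have hKne : Nonempty K :=
    ⟨⟨hb (fun x y : G => Γ.dist x y) 1 1, subset_closure ⟨1, rfl⟩⟩⟩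
  choose! Φ hΦ using key
  have h1 : (closure (range (hb (fun x y : G ⧸ T => Γ'.dist x y) 1))).Countable := by
    refine Set.MapsTo.countable_of_injOn (f := Φ) (t := univ) (fun _ _ => mem_univ _) ?_
      (Set.to_countable _)
    intro k hk k' hk' he
    funext z
    obtain ⟨g, rfl⟩ := QuotientGroup.mk'_surjective T z
    rw [hΦ k hk, hΦ k' hk', he]
  exact h1.mono sdiff_subset

end quot

end Pool.Agent.Lib.MP_eca5e6_al.C2
end

section

/-!
# MP_eca5e6_al, class 2: assembly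
-/

set_option autoImplicit false

namespace Pool.Agent.Lib.MP_eca5e6_al.C2

open Filter Set Topology
open scoped commutatorElement

section pair

variable {G : Type} [Group G]

theorem pair_inv_left {s t : G} (h1 : Commute ⁅s, t⁆ s) (h2 : Commute ⁅s, t⁆ t) :
    Commute ⁅s⁻¹, t⁆ s⁻¹ ∧ Commute ⁅s⁻¹, t⁆ t := by
  have e : ⁅s⁻¹, t⁆ = ⁅s, t⁆⁻¹ := by
    have e1 : ⁅s⁻¹, t⁆ = s⁻¹ * (⁅s, t⁆⁻¹ * s) := by
      simp only [commutatorElement_def]
      group
    rw [e1, h1.inv_left.eq, inv_mul_cancel_left]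
  rw [e]
  exact ⟨h1.inv_left.inv_right, h2.inv_left⟩

theorem pair_inv_right {s t : G} (h1 : Commute ⁅s, t⁆ s) (h2 : Commute ⁅s, t⁆ t) :
    Commute ⁅s, t⁻¹⁆ s ∧ Commute ⁅s, t⁻¹⁆ t⁻¹ := by
  have e : ⁅s, t⁻¹⁆ = ⁅s, t⁆⁻¹ := by
    have e1 : ⁅s, t⁻¹⁆ = t⁻¹ * (⁅s, t⁆⁻¹ * t) := by
      simp only [commutatorElement_def]
      group
    rw [e1, h2.inv_left.eq, inv_mul_cancel_left]
  rw [e]
  exact ⟨h1.inv_left, h2.inv_left.inv_right⟩

theorem pair_z {a b : G} (h1 : Commute ⁅a, b⁆ a) (h2 : Commute ⁅a, b⁆ b) :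
    ∃ z, a * b = b * a * z ∧ Commute a z ∧ Commute b z := by
  obtain ⟨h3, h4⟩ := pair_inv_left h1 h2
  obtain ⟨h5, h6⟩ := pair_inv_right h3 h4
  refine ⟨⁅a⁻¹, b⁻¹⁆, ?_, ?_, ?_⟩
  · simp only [commutatorElement_def]
    group
  · have := h5.inv_right.symm
    rwa [inv_inv] at this
  · have := h6.inv_right.symm
    rwa [inv_inv] at this

end pair

variable {G : Type} [Group G] {S : Finset G} {Γ : SimpleGraph G}

theorem classTwo_pair (hS : Subgroup.closure (S : Set G) = ⊤)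
    (hΓ : Γ = SimpleGraph.fromRel (fun g h : G => g⁻¹ * h ∈ S)) (L : Finset G)
    (hL : ∀ s, s ∈ L ↔ s ∈ S ∨ s⁻¹ ∈ S) {ω : G → G → ℝ} {φ μ : G → ℝ} {a b : G}
    (h1 : ∀ g g' h, ω (g * g') h = ω g h + ω g' h)
    (h2 : ∀ g h h', ω g (h * h') = ω g h + ω g h') (h3 : ∀ g, ω g g = 0)
    (hφ : ∀ g h, φ (g * h) = φ g + φ h + ω g h / 2) (ha : a ∈ L) (hbL : b ∈ L)
    (hμ : ∀ g h, μ (g * h) = μ g + μ h) (hμL : ∀ s ∈ L, μ s ≤ 1) (hμa : μ a = 1)
    (hμb : μ b = 1) (hκ : 0 < ω a b) (htight : ∀ s ∈ L, μ s = 1 → 0 ≤ ω a s ∧ ω a s ≤ ω a b)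
    (hω : ∀ s ∈ L, ∀ t ∈ L, μ s = 1 → μ t = 1 → ω s t = ω a t - ω a s) {z : G}
    (hz : a * b = b * a * z) (haz : Commute a z) (hbz : Commute b z) :
    ¬ (closure (range (hb (fun x y : G => Γ.dist x y) 1)) \
      range (hb (fun x y : G => Γ.dist x y) 1)).Countable := by
  classical
  obtain ⟨δ, hδ0, hδ⟩ : ∃ δ : ℝ, 0 < δ ∧ ∀ s ∈ L, μ s ≠ 1 → μ s ≤ 1 - δ := by
    rcases (L.filter (fun s => μ s ≠ 1)).eq_empty_or_nonempty with he | he
    · refine ⟨1, one_pos, fun s hs hs1 => ?_⟩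
      have : s ∈ L.filter (fun s => μ s ≠ 1) := Finset.mem_filter.2 ⟨hs, hs1⟩
      rw [he] at this
      exact absurd this (Finset.notMem_empty s)
    · obtain ⟨s1, hs1, hmin⟩ := (L.filter (fun s => μ s ≠ 1)).exists_max_image μ he
      obtain ⟨hs1L, hs1n⟩ := Finset.mem_filter.1 hs1
      refine ⟨1 - μ s1, sub_pos.2 (lt_of_le_of_ne (hμL s1 hs1L) hs1n), fun s hs hs' => ?_⟩
      have := hmin s (Finset.mem_filter.2 ⟨hs, hs'⟩)
      linarith
  set B : ℝ := ∑ s ∈ L, ∑ t ∈ L, |ω s t| with hBdef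
  set B' : ℝ := ∑ s ∈ L, |φ s| with hB'def
  have hB0 : 0 ≤ B := Finset.sum_nonneg fun s _ => Finset.sum_nonneg fun t _ => abs_nonneg _
  have hB'0 : 0 ≤ B' := Finset.sum_nonneg fun s _ => abs_nonneg _
  have hB : ∀ s ∈ L, ∀ t ∈ L, |ω s t| ≤ B := by
    intro s hs t ht
    calc |ω s t| ≤ ∑ t ∈ L, |ω s t| :=
          Finset.single_le_sum (f := fun t => |ω s t|) (fun t _ => abs_nonneg _) ht
      _ ≤ B := Finset.single_le_sum (f := fun s => ∑ t ∈ L, |ω s t|)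
          (fun s _ => Finset.sum_nonneg fun t _ => abs_nonneg _) hs
  have hB' : ∀ s ∈ L, |φ s| ≤ B' := fun s hs =>
    Finset.single_le_sum (f := fun s => |φ s|) (fun s _ => abs_nonneg _) hs
  set κ := ω a b with hκdef
  set K : ℝ := 2 * B' + κ / 2 + 3 / 2 * (B / δ) with hK
  have hK0 : 0 ≤ K := by positivity
  have hC : ∀ y x m e : ℕ, ln Γ (b ^ y * a ^ x * (z ^ m)⁻¹) = x + y + e →
      m ≤ ⌈K / κ⌉₊ * (e + 1) * (x + y + e + 1) := by
    intro y x m e hlen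
    obtain ⟨w, hw1, hw2, hw3⟩ := exists_word hS hΓ _ _ hlen
    have hb1 := area_bound L μ φ ω hμ hφ h1 h2 h3 hκ rfl hz ha hbL hμa hμb htight hω hδ0 hδ hB
      hB' hB0 hB'0 y x m e w (fun s hs => (hL s).2 (hw1 s hs)) hw2 hw3
    have he0 : (0 : ℝ) ≤ e := Nat.cast_nonneg _
    have hx0 : (0 : ℝ) ≤ x := Nat.cast_nonneg _
    have hy0 : (0 : ℝ) ≤ y := Nat.cast_nonneg _
    have hBδ : 0 ≤ B / δ := by positivity
    have hb2 : (2 * B' + (κ / 2 + 3 / 2 * (B / δ)) * e) * (x + y + e) ≤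
        K * (e + 1) * (x + y + e + 1) := by
      apply mul_le_mul
      · rw [hK]
        have : 0 ≤ 2 * B' * e := by positivity
        have : 0 ≤ κ / 2 + 3 / 2 * (B / δ) := by positivity
        linarith
      · linarith
      · positivity
      · positivity
    have hb3 : (m : ℝ) ≤ K / κ * (e + 1) * (x + y + e + 1) := by
      have : K / κ * (e + 1) * (x + y + e + 1) = K * (e + 1) * (x + y + e + 1) / κ := by ring
      rw [this, le_div_iff₀ hκ]
      linarith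
    have hb4 : K / κ * (e + 1) * (x + y + e + 1) ≤
        (⌈K / κ⌉₊ : ℝ) * (e + 1) * (x + y + e + 1) := by
      apply mul_le_mul_of_nonneg_right _ (by positivity)
      apply mul_le_mul_of_nonneg_right (Nat.le_ceil _) (by positivity)
    exact_mod_cast hb3.trans hb4
  obtain ⟨hFF, hlen⟩ := ff_of hS hΓ ((hL a).1 ha) ((hL b).1 hbL) hz haz hbz hμ
    (fun s hs => hμL s ((hL s).2 hs)) hμa hμb hC
  exact uncountable_of_ff hS hΓ hz haz hbz hFF hlen

theorem classTwo_main (hS : Subgroup.closure (S : Set G) = ⊤)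
    (hΓ : Γ = SimpleGraph.fromRel (fun g h : G => g⁻¹ * h ∈ S))
    (N : Subgroup G) (hN : N.Normal) (hN2 : ∀ x y z : G, ⁅⁅x, y⁆, z⁆ ∈ N)
    (hpair : ∀ s ∈ S, ∀ t ∈ S, Commute ⁅s, t⁆ s ∧ Commute ⁅s, t⁆ t)
    (hva : ¬ ∃ H : Subgroup G, H.FiniteIndex ∧ ∀ a ∈ H, ∀ b ∈ H, ⁅a, b⁆ ∈ N) :
    ¬ (closure (range (hb (fun x y : G => Γ.dist x y) 1)) \
      range (hb (fun x y : G => Γ.dist x y) 1)).Countable := by
  classical
  obtain ⟨ω, φ, h1, h2, h3, hφ, s0, hs0, t0, ht0, hne⟩ := exists_area S hS N hN hN2 hva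
  set L : Finset G := S ∪ S.image (fun t => t⁻¹) with hLdef
  have hL : ∀ s, s ∈ L ↔ s ∈ S ∨ s⁻¹ ∈ S := by
    intro s
    rw [hLdef, Finset.mem_union, Finset.mem_image]
    constructor
    · rintro (h | ⟨t, ht, rfl⟩)
      · exact Or.inl h
      · exact Or.inr (by rwa [inv_inv])
    · rintro (h | h)
      · exact Or.inl h
      · exact Or.inr ⟨s⁻¹, h, inv_inv s⟩
  obtain ⟨μ, a, b, ha, hbL, hμ, hμL, hμa, hμb, hκ, htight, hω⟩ := exists_edge L
    (fun s hs => (hL _).2 (by rw [inv_inv]; exact ((hL s).1 hs).symm)) ω h1 h2 h3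
    ⟨s0, (hL _).2 (Or.inl hs0), t0, (hL _).2 (Or.inl ht0), hne⟩
  have hpair' : Commute ⁅a, b⁆ a ∧ Commute ⁅a, b⁆ b := by
    rcases (hL a).1 ha with ha' | ha' <;> rcases (hL b).1 hbL with hb' | hb'
    · exact hpair a ha' b hb'
    · have e := hpair a ha' b⁻¹ hb'
      have e2 := pair_inv_right e.1 e.2
      rwa [inv_inv] at e2
    · have e := hpair a⁻¹ ha' b hb'
      have e2 := pair_inv_left e.1 e.2
      rwa [inv_inv] at e2
    · have e := hpair a⁻¹ ha' b⁻¹ hb'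
      have e2 := pair_inv_right e.1 e.2
      have e3 := pair_inv_left e2.1 e2.2
      rwa [inv_inv, inv_inv] at e3
  obtain ⟨z, hz, haz, hbz⟩ := pair_z hpair'.1 hpair'.2
  exact classTwo_pair hS hΓ L hL h1 h2 h3 hφ ha hbL hμ hμL hμa hμb hκ htight hω hz haz hbz

end Pool.Agent.Lib.MP_eca5e6_al.C2
end

section

/-!
# MP_eca5e6_al, class 2: finite normal subgroups
-/

set_option autoImplicit false

namespace Pool.Agent.Lib.MP_eca5e6_al.C2

open Filter Set Topology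
open scoped commutatorElement

variable {G : Type} [Group G] {S : Finset G} {Γ : SimpleGraph G}

/-- uncountability passes from `G / T` to `G`, `T` finite -/
theorem lift_finite (hS : Subgroup.closure (S : Set G) = ⊤)
    (hΓ : Γ = SimpleGraph.fromRel (fun g h : G => g⁻¹ * h ∈ S))
    (T : Subgroup G) (hT : T.Normal) (hTf : Finite T)
    (h : ∀ (S' : Finset (G ⧸ T)) (Γ' : SimpleGraph (G ⧸ T)),
      (∀ x, x ∈ S' ↔ ∃ s ∈ S, (QuotientGroup.mk' T) s = x) →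
      Subgroup.closure (S' : Set (G ⧸ T)) = ⊤ →
      Γ' = SimpleGraph.fromRel (fun g h : G ⧸ T => g⁻¹ * h ∈ S') →
      ¬ (closure (range (hb (fun x y : G ⧸ T => Γ'.dist x y) 1)) \
        range (hb (fun x y : G ⧸ T => Γ'.dist x y) 1)).Countable) :
    ¬ (closure (range (hb (fun x y : G => Γ.dist x y) 1)) \
      range (hb (fun x y : G => Γ.dist x y) 1)).Countable := by
  classical
  intro hc
  have hS' : ∀ x, x ∈ S.image (QuotientGroup.mk' T) ↔
      ∃ s ∈ S, (QuotientGroup.mk' T) s = x := by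
    intro x
    rw [Finset.mem_image]
  exact h (S.image (QuotientGroup.mk' T)) _ hS' (quot_gen hS T hS') rfl
    (quot_countable hS hΓ T hS' rfl hc)

theorem classTwo_fin (hS : Subgroup.closure (S : Set G) = ⊤)
    (hΓ : Γ = SimpleGraph.fromRel (fun g h : G => g⁻¹ * h ∈ S))
    (T : Subgroup G) (hT : T.Normal) (hTf : Finite T)
    (hpair : ∀ s ∈ S, ∀ t ∈ S, ⁅⁅s, t⁆, s⁆ ∈ T ∧ ⁅⁅s, t⁆, t⁆ ∈ T)
    (N : Subgroup G) (hN : N.Normal) (hTN : T ≤ N) (hN2 : ∀ x y z : G, ⁅⁅x, y⁆, z⁆ ∈ N)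
    (hva : ¬ ∃ H : Subgroup G, H.FiniteIndex ∧ ∀ a ∈ H, ∀ b ∈ H, ⁅a, b⁆ ∈ N) :
    ¬ (closure (range (hb (fun x y : G => Γ.dist x y) 1)) \
      range (hb (fun x y : G => Γ.dist x y) 1)).Countable := by
  classical
  apply lift_finite hS hΓ T hT hTf
  intro S' Γ' hS' hSq hΓ'
  have hπ : Function.Surjective (QuotientGroup.mk' T) := QuotientGroup.mk'_surjective T
  have hπ1 : ∀ g, QuotientGroup.mk' T g = 1 ↔ g ∈ T := fun g => QuotientGroup.eq_one_iff g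
  have hmem : ∀ g, QuotientGroup.mk' T g ∈ N.map (QuotientGroup.mk' T) ↔ g ∈ N := by
    intro g
    constructor
    · rintro ⟨n, hn, hng⟩
      have h1 : n⁻¹ * g ∈ T := (hπ1 _).1 (by rw [map_mul, map_inv, hng, inv_mul_cancel])
      have h2 := N.mul_mem hn (hTN h1)
      rwa [mul_inv_cancel_left] at h2
    · exact fun h => Subgroup.mem_map_of_mem _ h
  have hcom : ∀ x y : G, ⁅x, y⁆ ∈ T → Commute (QuotientGroup.mk' T x) (QuotientGroup.mk' T y) := by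
    intro x y h
    rw [← hπ1, map_commutatorElement, commutatorElement_eq_one_iff_mul_comm] at h
    exact h
  refine classTwo_main hSq hΓ' (N.map (QuotientGroup.mk' T)) (hN.map _ hπ) ?_ ?_ ?_
  · intro x y z
    obtain ⟨x, rfl⟩ := hπ x
    obtain ⟨y, rfl⟩ := hπ y
    obtain ⟨z, rfl⟩ := hπ z
    rw [← map_commutatorElement, ← map_commutatorElement, hmem]
    exact hN2 x y z
  · intro x hx y hy
    obtain ⟨s, hs, rfl⟩ := (hS' x).1 hx
    obtain ⟨t, ht, rfl⟩ := (hS' y).1 hy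
    obtain ⟨h1, h2⟩ := hpair s hs t ht
    rw [← map_commutatorElement]
    exact ⟨hcom _ _ h1, hcom _ _ h2⟩
  · rintro ⟨H, hH, hab⟩
    apply hva
    refine ⟨H.comap (QuotientGroup.mk' T), ?_, ?_⟩
    · constructor
      rw [Subgroup.index_comap_of_surjective _ hπ]
      exact hH.index_ne_zero
    · intro a ha b hb'
      rw [← hmem, map_commutatorElement]
      exact hab _ ha _ hb'

end Pool.Agent.Lib.MP_eca5e6_al.C2
end
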